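import Pool.Agent.H74FS.Tree

namespace Pool.Agent.H74FS

open Classical

/-- clopen predicates -/
def Cl {X : Type*} [TopologicalSpace X] (p : X → Prop) : Prop := IsClopen {x | p x}

section ClLemmas

variable {X : Type*} [TopologicalSpace X] {p q : X → Prop}

theorem Cl.const (a : Prop) : Cl (fun _ : X => a) := by
  unfold Cl
  by_cases h : a
  · simp only [h, Set.setOf_true]; exact isClopen_univ
  · simp only [h, Set.setOf_false]; exact isClopen_empty

theorem Cl.and (hp : Cl p) (hq : Cl q) : Cl (fun x => p x ∧ q x) := IsClopen.inter hp hq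

theorem Cl.or (hp : Cl p) (hq : Cl q) : Cl (fun x => p x ∨ q x) := IsClopen.union hp hq

theorem Cl.not (hp : Cl p) : Cl (fun x => ¬ p x) := IsClopen.compl hp

theorem Cl.congr (hp : Cl p) (h : ∀ x, p x ↔ q x) : Cl q := by
  have : p = q := funext fun x => propext (h x)
  rwa [← this]

theorem Cl.iff (hp : Cl p) (hq : Cl q) : Cl (fun x => (p x ↔ q x)) := by
  refine Cl.congr ((hp.and hq).or (hp.not.and hq.not)) ?_
  intro x
  tauto

theorem Cl.comp {Y : Type*} [TopologicalSpace Y] {f : Y → X} (hp : Cl p) (hf : Continuous f) :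
    Cl (fun y => p (f y)) := IsClopen.preimage hp hf

theorem Cl.isOpen (hp : Cl p) : IsOpen {x | p x} := IsClopen.isOpen hp

theorem Cl.isClosed (hp : Cl p) : IsClosed {x | p x} := IsClopen.isClosed hp

theorem Cl.dec (hp : Cl p) : Continuous (fun x => decide (p x)) := by
  rw [continuous_bool_rng true]
  have : (fun x => decide (p x)) ⁻¹' {true} = {x | p x} := by
    ext x; simp
  rw [this]
  exact hp

end ClLemmas

theorem Cl.coord {D : Type*} [TopologicalSpace D] [DiscreteTopology D] {ι : Type*} (k : ι)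
    (S : Set D) : Cl (fun x : ι → D => x k ∈ S) :=
  IsClopen.preimage (isClopen_discrete S) (continuous_apply k)

theorem isOpen_pre (t : List ℕ) : ∀ k : ℕ, IsOpen {x : ℕ → ℕ | pre x k = t} := by
  induction t with
  | nil =>
    intro k
    cases k with
    | zero => simp [pre]
    | succ k => simp [pre]
  | cons a t ih =>
    intro k
    cases k with
    | zero => simp [pre]
    | succ k =>
      have : {x : ℕ → ℕ | pre x (k + 1) = a :: t} = {x | x k ∈ ({a} : Set ℕ)} ∩ {x | pre x k = t} := by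
        ext x
        simp [pre]
      rw [this]
      exact (Cl.coord k {a}).isOpen.inter (ih k)

theorem Cl.pre {X : Type*} [TopologicalSpace X] {f : X → ℕ → ℕ} (hf : Continuous f) (k : ℕ)
    {p : X → List ℕ → Prop} (hp : ∀ t, Cl (fun x => p x t)) :
    Cl (fun x => p x (pre (f x) k)) := by
  have key : ∀ p : X → List ℕ → Prop, (∀ t, Cl (fun x => p x t)) →
      IsOpen {x | p x (H74FS.pre (f x) k)} := by
    intro p hp
    have : {x | p x (H74FS.pre (f x) k)} =
        ⋃ t : List ℕ, {x | H74FS.pre (f x) k = t} ∩ {x | p x t} := by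
      ext x
      simp
    rw [this]
    exact isOpen_iUnion fun t => ((isOpen_pre t k).preimage hf).inter (hp t).isOpen
  constructor
  · rw [← isOpen_compl_iff]
    exact key (fun x t => ¬ p x t) (fun t => (hp t).not)
  · exact key p hp

theorem pre_eq {x y : ℕ → ℕ} : ∀ {n m : ℕ}, pre x n = pre y m → n = m ∧ ∀ k < n, x k = y k := by
  intro n
  induction n with
  | zero =>
    intro m h
    cases m with
    | zero => exact ⟨rfl, fun k hk => absurd hk (by omega)⟩
    | succ m => simp [pre] at h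
  | succ n ih =>
    intro m h
    cases m with
    | zero => simp [pre] at h
    | succ m =>
      simp only [pre, List.cons.injEq] at h
      obtain ⟨h1, h2⟩ := ih h.2
      subst h1
      refine ⟨rfl, ?_⟩
      intro k hk
      by_cases hkn : k = n
      · rw [hkn]; exact h.1
      · exact h2 k (by omega)

theorem modulus {f : (ℕ → ℕ) → (ℕ → ℕ)} (hf : Continuous f) (y : ℕ → ℕ) (k : ℕ) :
    ∃ N, ∀ y', (∀ j < N, y' j = y j) → f y' k = f y k := by
  have hU : IsOpen {y' : ℕ → ℕ | f y' k = f y k} :=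
    (isOpen_discrete {f y k}).preimage ((continuous_apply k).comp hf)
  obtain ⟨v, ⟨x, n, rfl⟩, hy, hv⟩ :=
    (PiNat.isTopologicalBasis_cylinders (fun _ => ℕ)).exists_subset_of_mem_open
      (show y ∈ {y' : ℕ → ℕ | f y' k = f y k} from rfl) hU
  refine ⟨n, ?_⟩
  intro y' hy'
  apply hv
  intro j hj
  rw [hy' j hj]
  exact hy j hj

/-- the analytic set with code `c` -/
def U (c x : ℕ → ℕ) : Prop := ∃ y : ℕ → ℕ, ∀ n, c (Encodable.encode (pre x n, pre y n)) = 0

theorem exists_code {A : Set (ℕ → ℕ)} (hA : MeasureTheory.AnalyticSet A) :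
    ∃ c, ∀ x, x ∈ A ↔ U c x := by
  rw [MeasureTheory.AnalyticSet] at hA
  rcases hA with rfl | ⟨f, hf, rfl⟩
  · refine ⟨fun _ => 1, ?_⟩
    intro x
    constructor
    · intro h; exact h.elim
    · rintro ⟨y, hy⟩
      exact absurd (hy 0) (by simp)
  · refine ⟨fun k => if ∃ (x y : ℕ → ℕ) (n : ℕ), k = Encodable.encode (pre x n, pre y n) ∧ f y = x
      then 0 else 1, ?_⟩
    intro x
    constructor
    · rintro ⟨y, rfl⟩
      refine ⟨y, ?_⟩
      intro n
      exact if_pos ⟨f y, y, n, rfl, rfl⟩
    · rintro ⟨y, hy⟩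
      refine ⟨y, ?_⟩
      ext k
      obtain ⟨N, hN⟩ := modulus hf y k
      have h1 := hy (max N (k + 1))
      have h2 : ∃ (x' y' : ℕ → ℕ) (n : ℕ), Encodable.encode (pre x (max N (k + 1)),
          pre y (max N (k + 1))) = Encodable.encode (pre x' n, pre y' n) ∧ f y' = x' := by
        by_contra hcon
        beta_reduce at h1
        rw [if_neg hcon] at h1
        exact absurd h1 (by simp)
      obtain ⟨x', y', n, h3, h4⟩ := h2
      have h5 := Encodable.encode_injective h3
      rw [Prod.mk.injEq] at h5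
      obtain ⟨h6, h7⟩ := pre_eq h5.1
      obtain ⟨_, h8⟩ := pre_eq h5.2
      have h9 : f y' k = f y k := hN y' (fun j hj => (h8 j (lt_of_lt_of_le hj (le_max_left _ _))).symm)
      rw [← h9, h4]
      exact (h7 k (lt_of_lt_of_le (Nat.lt_succ_self k) (le_max_right _ _))).symm

/-- the tree attached to a code `c` and a point `x` -/
def Tr (c x : ℕ → ℕ) : Set (List ℕ) := {s | c (Encodable.encode (pre x s.length, s)) = 0}

theorem U_iff (c x : ℕ → ℕ) : U c x ↔ ∃ y, ∀ n, pre y n ∈ Tr c x := by
  unfold U Tr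
  apply exists_congr
  intro y
  apply forall_congr'
  intro n
  rw [Set.mem_setOf_eq, length_pre]

theorem Tr_cl (c : ℕ → ℕ) (s : List ℕ) : Cl (fun x => s ∈ Tr c x) := by
  refine Cl.congr (Cl.pre (f := fun x => x) continuous_id s.length
    (p := fun _ t => c (Encodable.encode (t, s)) = 0) (fun t => Cl.const _)) ?_
  intro x
  rfl

theorem diag_analytic : MeasureTheory.AnalyticSet {x : ℕ → ℕ | U x x} := by
  have hC : IsClosed {z : (ℕ → ℕ) × (ℕ → ℕ) |
      ∀ n, z.1 (Encodable.encode (pre z.1 n, pre z.2 n)) = 0} := by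
    rw [Set.setOf_forall]
    refine isClosed_iInter fun n => ?_
    have h1 : Cl (fun z : (ℕ → ℕ) × (ℕ → ℕ) => z.1 (Encodable.encode (pre z.1 n, pre z.2 n)) = 0) := by
      refine Cl.pre (f := fun z : (ℕ → ℕ) × (ℕ → ℕ) => z.1) continuous_fst n
        (p := fun z t => z.1 (Encodable.encode (t, pre z.2 n)) = 0) ?_
      intro t
      refine Cl.pre (f := fun z : (ℕ → ℕ) × (ℕ → ℕ) => z.2) continuous_snd n
        (p := fun z t' => z.1 (Encodable.encode (t, t')) = 0) ?_
      intro t'
      exact Cl.comp (Cl.coord (Encodable.encode (t, t')) {0}) continuous_fst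
    exact h1.isClosed
  have h2 := hC.analyticSet.image_of_continuous (f := Prod.fst) continuous_fst
  convert h2 using 1
  ext x
  constructor
  · rintro ⟨y, hy⟩
    exact ⟨(x, y), hy, rfl⟩
  · rintro ⟨⟨x', y⟩, hy, rfl⟩
    exact ⟨y, hy⟩

theorem diag_not_borel : ¬ MeasurableSet {x : ℕ → ℕ | U x x} := by
  intro h
  have h1 : MeasurableSet {x : ℕ → ℕ | U x x}ᶜ := h.compl
  obtain ⟨c, hc⟩ := exists_code h1.analyticSet
  have h2 := hc c
  simp only [Set.mem_compl_iff, Set.mem_setOf_eq] at h2
  tauto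

end Pool.Agent.H74FS
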