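import Mathlib

/-!
Finitely stable graphs: flipping finitely many pairs, the disjoint sum of all finite
modifications of infinitely many copies of a blown up relational structure.
-/

namespace Pool.Agent.H74FS

open Classical

/-- The graph obtained from `G` by changing the status of the pairs in the finite set `F`. -/
def flip {V : Type*} (G : SimpleGraph V) (F : Finset (Sym2 V)) : SimpleGraph V where
  Adj u v := u ≠ v ∧ (G.Adj u v ↔ s(u, v) ∉ F)
  symm := ⟨by
    intro u v h
    refine ⟨h.1.symm, ?_⟩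
    rw [G.adj_comm, Sym2.eq_swap]
    exact h.2⟩
  loopless := ⟨fun _ h => h.1 rfl⟩

/-- `G` is finitely stable: every finite change of adjacencies gives an isomorphic graph. -/
def FinitelyStable {V : Type*} (G : SimpleGraph V) : Prop :=
  ∀ F : Finset (Sym2 V), Nonempty (flip G F ≃g G)

theorem flip_adj {V : Type*} (G : SimpleGraph V) (F : Finset (Sym2 V)) (u v : V) :
    (flip G F).Adj u v ↔ u ≠ v ∧ (G.Adj u v ↔ s(u, v) ∉ F) := Iff.rfl

theorem flip_empty {V : Type*} (G : SimpleGraph V) : flip G ∅ = G := by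
  ext u v
  rw [flip_adj]
  constructor
  · intro h
    simpa using h.2
  · intro h
    exact ⟨h.ne, by simpa using h⟩

/-- flipping commutes with isomorphisms -/
def flipIso {V V' : Type*} {G : SimpleGraph V} {G' : SimpleGraph V'} (φ : G ≃g G')
    (F : Finset (Sym2 V)) (F' : Finset (Sym2 V'))
    (h : ∀ u v, s(u, v) ∈ F ↔ s(φ u, φ v) ∈ F') : flip G F ≃g flip G' F' where
  toEquiv := φ.toEquiv
  map_rel_iff' := by
    intro u v
    show (flip G' F').Adj (φ u) (φ v) ↔ (flip G F).Adj u v
    rw [flip_adj, flip_adj, h u v, φ.map_adj_iff]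
    simp

theorem FinitelyStable.of_iso {V V' : Type*} {G : SimpleGraph V} {G' : SimpleGraph V'}
    (φ : G ≃g G') (hG : FinitelyStable G) : FinitelyStable G' := by
  intro F'
  obtain ⟨ψ⟩ := hG (F'.image (Sym2.map φ.symm))
  refine ⟨(flipIso φ (F'.image (Sym2.map φ.symm)) F' ?_).symm.trans (ψ.trans φ)⟩
  intro u v
  rw [Finset.mem_image]
  constructor
  · rintro ⟨e, he, h2⟩
    have h3 : e = s(φ u, φ v) := by
      have h4 := congrArg (Sym2.map φ) h2
      rw [Sym2.map_map] at h4
      have h5 : (φ ∘ φ.symm : V' → V') = id := by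
        funext x; simp
      rw [h5, Sym2.map_id] at h4
      simpa using h4
    rw [← h3]; exact he
  · intro h2
    exact ⟨_, h2, by simp⟩

theorem FinitelyStable.of_single {V : Type*} {G : SimpleGraph V}
    (h : ∀ u v, u ≠ v → Nonempty (flip G {s(u, v)} ≃g G)) : FinitelyStable G := by
  intro F
  induction F using Finset.induction_on with
  | empty => rw [flip_empty]; exact ⟨SimpleGraph.Iso.refl⟩
  | insert e F he ih =>
    obtain ⟨φ⟩ := ih
    induction e using Sym2.ind with
    | _ u v =>
      by_cases huv : u = v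
      · subst huv
        have : flip G (insert s(u, u) F) = flip G F := by
          ext a b
          rw [flip_adj, flip_adj]
          constructor
          · rintro ⟨h1, h2⟩
            refine ⟨h1, ?_⟩
            rw [h2]
            simp only [Finset.mem_insert, not_or]
            constructor
            · exact fun h => h.2
            · intro h
              refine ⟨?_, h⟩
              intro h3
              rw [Sym2.eq_iff] at h3
              rcases h3 with h3 | h3 <;> exact h1 (h3.1.trans h3.2.symm)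
          · rintro ⟨h1, h2⟩
            refine ⟨h1, ?_⟩
            rw [h2]
            simp only [Finset.mem_insert, not_or]
            constructor
            · intro h
              refine ⟨?_, h⟩
              intro h3
              rw [Sym2.eq_iff] at h3
              rcases h3 with h3 | h3 <;> exact h1 (h3.1.trans h3.2.symm)
            · exact fun h => h.2
        rw [this]
        exact ⟨φ⟩
      · have key : flip G (insert s(u, v) F) = flip (flip G F) {s(u, v)} := by
          ext a b
          rw [flip_adj, flip_adj, flip_adj]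
          simp only [Finset.mem_insert, Finset.mem_singleton, not_or]
          by_cases hab : a = b
          · simp [hab]
          · by_cases h1 : s(a, b) = s(u, v)
            · have h2 : s(a, b) ∉ F := by rw [h1]; exact he
              simp [hab, h1, he]
            · simp [hab, h1]
        rw [key]
        obtain ⟨ψ⟩ := h (φ u) (φ v) (fun h2 => huv (φ.injective h2))
        refine ⟨(flipIso φ {s(u, v)} {s(φ u, φ v)} ?_).trans ψ⟩
        intro a b
        simp only [Finset.mem_singleton, Sym2.eq_iff, φ.injective.eq_iff]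

theorem exists_ends {P : Type*} (F : Finset (Sym2 P)) :
    ∃ E : Finset P, ∀ p q, s(p, q) ∈ F → p ∈ E ∧ q ∈ E := by
  refine ⟨F.biUnion (fun e => e.toFinset), ?_⟩
  intro p q h
  constructor
  · rw [Finset.mem_biUnion]
    exact ⟨_, h, by rw [Sym2.mem_toFinset]; exact Sym2.mem_mk_left p q⟩
  · rw [Finset.mem_biUnion]
    exact ⟨_, h, by rw [Sym2.mem_toFinset]; exact Sym2.mem_mk_right p q⟩

theorem exists_diff {P : Type*} (G G' : SimpleGraph P) (E : Finset P)
    (h : ∀ p q, ¬ (G.Adj p q ↔ G'.Adj p q) → p ∈ E ∧ q ∈ E) :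
    ∃ F : Finset (Sym2 P), ∀ p q, G.Adj p q ↔ (p ≠ q ∧ (G'.Adj p q ↔ s(p, q) ∉ F)) := by
  refine ⟨((E ×ˢ E).filter (fun x => ¬ (G.Adj x.1 x.2 ↔ G'.Adj x.1 x.2))).image
    (fun x => s(x.1, x.2)), ?_⟩
  intro p q
  have key : s(p, q) ∈ ((E ×ˢ E).filter (fun x => ¬ (G.Adj x.1 x.2 ↔ G'.Adj x.1 x.2))).image
      (fun x => s(x.1, x.2)) ↔ ¬ (G.Adj p q ↔ G'.Adj p q) := by
    rw [Finset.mem_image]
    constructor
    · rintro ⟨x, hx, hx2⟩
      rw [Finset.mem_filter] at hx
      rw [Sym2.eq_iff] at hx2
      rcases hx2 with h2 | h2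
      · rw [← h2.1, ← h2.2]; exact hx.2
      · rw [← h2.1, ← h2.2, G.adj_comm, G'.adj_comm]; exact hx.2
    · intro h2
      refine ⟨(p, q), ?_, rfl⟩
      rw [Finset.mem_filter, Finset.mem_product]
      exact ⟨h p q h2, h2⟩
  rw [key]
  constructor
  · intro h2
    refine ⟨h2.ne, ?_⟩
    tauto
  · rintro ⟨_, h2⟩
    tauto

/-- two maps to a common set, all of whose fibres are countably infinite -/
theorem exists_equiv_fiber {α β γ : Type*} [Countable α] [Countable β] (f : α → γ) (g : β → γ)
    (hf : ∀ c, Infinite {a // f a = c}) (hg : ∀ c, Infinite {b // g b = c}) :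
    ∃ σ : α ≃ β, ∀ a, g (σ a) = f a := by
  have h : ∀ c, Nonempty ({a // f a = c} ≃ {b // g b = c}) := by
    intro c
    have := hf c
    have := hg c
    exact nonempty_equiv_of_countable
  exact ⟨Equiv.ofFiberEquiv (fun c => (h c).some), fun a => Equiv.ofFiberEquiv_map _ a⟩

section Gam

variable {B : Type}

abbrev P (B : Type) := ℕ × B × ℕ
abbrev I (B : Type) := Finset (Sym2 (P B))
abbrev J (B : Type) := I B × ℕ
abbrev W (B : Type) := J B × P B

/-- infinitely many copies of the blow-up of the relation `R` -/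
def Y (R : B → B → Prop) (h : ∀ a b, R a b → R b a) : SimpleGraph (P B) where
  Adj u v := u ≠ v ∧ u.1 = v.1 ∧ R u.2.1 v.2.1
  symm := ⟨fun _ _ k => ⟨k.1.symm, k.2.1.symm, h _ _ k.2.2⟩⟩
  loopless := ⟨fun _ k => k.1 rfl⟩

/-- the sum of all finite modifications, each of them infinitely often -/
def Gam (R : I B → B → B → Prop) (h : ∀ F a b, R F a b → R F b a) : SimpleGraph (W B) where
  Adj u v := u ≠ v ∧ u.1 = v.1 ∧
    ((u.2.1 = v.2.1 ∧ R u.1.1 u.2.2.1 v.2.2.1) ↔ s(u.2, v.2) ∉ u.1.1)
  symm := ⟨by
    rintro ⟨j, p⟩ ⟨k, q⟩ ⟨h1, h2, h3⟩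
    simp only at h2 h3
    subst h2
    refine ⟨h1.symm, rfl, ?_⟩
    simp only
    rw [Sym2.eq_swap, ← h3]
    constructor
    · rintro ⟨a, b⟩; exact ⟨a.symm, h _ _ _ b⟩
    · rintro ⟨a, b⟩; exact ⟨a.symm, h _ _ _ b⟩⟩
  loopless := ⟨fun _ k => k.1 rfl⟩

theorem Gam_adj (R : I B → B → B → Prop) (h : ∀ F a b, R F a b → R F b a) (u v : W B) :
    (Gam R h).Adj u v ↔ u ≠ v ∧ u.1 = v.1 ∧
    ((u.2.1 = v.2.1 ∧ R u.1.1 u.2.2.1 v.2.2.1) ↔ s(u.2, v.2) ∉ u.1.1) := Iff.rfl

theorem exists_sigma [Countable B] (j1 j2 : J B) (F0 : I B) :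
    ∃ σ : Option {j : J B // j ≠ j1 ∧ j ≠ j2} ≃ J B,
      (σ none).1 = F0 ∧ ∀ j, (σ (some j)).1 = j.1.1 := by
  set lab : Option {j : J B // j ≠ j1 ∧ j ≠ j2} → I B := fun x => match x with
    | none => F0
    | some j => j.1.1 with hlab
  obtain ⟨σ, hσ⟩ := exists_equiv_fiber (α := Option {j : J B // j ≠ j1 ∧ j ≠ j2}) (β := J B)
    lab (fun j => j.1) (by
      intro c
      refine Infinite.of_injective
        (fun k : ℕ => (⟨some ⟨(c, k + (j1.2 + j2.2 + 1)), ?_, ?_⟩, ?_⟩ :
          {a : Option {j : J B // j ≠ j1 ∧ j ≠ j2} // lab a = c})) ?_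
      · intro h
        have := congrArg Prod.snd h
        simp only at this
        omega
      · intro h
        have := congrArg Prod.snd h
        simp only at this
        omega
      · rfl
      · intro a b hab
        simp only [Subtype.mk.injEq, Option.some.injEq, Prod.mk.injEq, true_and] at hab
        omega) (by
      intro c
      refine Infinite.of_injective (fun k : ℕ => (⟨(c, k), rfl⟩ : {b : J B // b.1 = c})) ?_
      intro a b hab
      simpa using hab)
  exact ⟨σ, hσ none, fun j => hσ (some j)⟩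

end Gam

end Pool.Agent.H74FS
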