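import Pool.Agent.H74FS.Space

namespace Pool.Agent.H74FS

open Classical

def sym2E {α β : Type*} (e : α ≃ β) : Sym2 α ≃ Sym2 β where
  toFun := Sym2.map e
  invFun := Sym2.map e.symm
  left_inv x := by
    induction x using Sym2.ind with
    | _ a b => simp
  right_inv x := by
    induction x using Sym2.ind with
    | _ a b => simp

theorem gam_const_iso {B : Type} {R S : B → B → Prop}
    (hR : ∀ a b, R a b → R b a) (hS : ∀ a b, S a b → S b a) (ψ : B ≃ B)
    (hψ : ∀ g k, R g k ↔ S (ψ g) (ψ k)) :
    Nonempty (Gam (fun _ => R) (fun _ => hR) ≃g Gam (fun _ => S) (fun _ => hS)) := by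
  let pe : P B ≃ P B := (Equiv.refl ℕ).prodCongr (ψ.prodCongr (Equiv.refl ℕ))
  let fe : I B ≃ I B := (sym2E pe).finsetCongr
  let T : W B ≃ W B := (fe.prodCongr (Equiv.refl ℕ)).prodCongr pe
  have hmem : ∀ (F : I B) (p q : P B), s(pe p, pe q) ∈ fe F ↔ s(p, q) ∈ F := by
    intro F p q
    show s(pe p, pe q) ∈ F.map (sym2E pe).toEmbedding ↔ _
    rw [Finset.mem_map_equiv]
    have : (sym2E pe).symm s(pe p, pe q) = s(p, q) := by
      rw [Equiv.symm_apply_eq]
      rfl
    rw [this]
  refine ⟨⟨T, ?_⟩⟩
  intro x y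
  rw [Gam_adj, Gam_adj, T.injective.ne_iff]
  have h1 : (T x).1 = (fe.prodCongr (Equiv.refl ℕ)) x.1 := rfl
  have h2 : (T y).1 = (fe.prodCongr (Equiv.refl ℕ)) y.1 := rfl
  rw [h1, h2, Equiv.apply_eq_iff_eq]
  have h3 : (T x).2.1 = x.2.1 := rfl
  have h4 : (T y).2.1 = y.2.1 := rfl
  have h5 : (T x).2.2.1 = ψ x.2.2.1 := rfl
  have h6 : (T y).2.2.1 = ψ y.2.2.1 := rfl
  have h7 : (T x).2 = pe x.2 := rfl
  have h8 : (T y).2 = pe y.2 := rfl
  have h9 : ((fe.prodCongr (Equiv.refl ℕ)) x.1).1 = fe x.1.1 := rfl
  rw [h3, h4, h5, h6, h7, h8, h9, hmem, ← hψ]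

inductive Q : Type
  | top : Q
  | v (n : ℕ) : Q
  | w (n : ℕ) : Q

def Q.code : Q → Option (ℕ ⊕ ℕ)
  | .top => none
  | .v n => some (Sum.inl n)
  | .w n => some (Sum.inr n)

theorem Q.code_inj : Function.Injective Q.code := by
  intro a b h
  cases a <;> cases b <;> simp_all [Q.code]

instance : Countable Q := Q.code_inj.countable

instance : Inhabited Q := ⟨.top⟩

def relQ (G : SimpleGraph ℕ) : Q → Q → Prop
  | .top, _ => True
  | .v _, .top => True
  | .v n, .v m => n = m ∨ G.Adj n m
  | .v n, .w m => n = m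
  | .w _, .top => True
  | .w n, .v m => n = m
  | .w _, .w _ => False

theorem relQ_symm (G : SimpleGraph ℕ) : ∀ a b, relQ G a b → relQ G b a := by
  intro a b h
  cases a <;> cases b <;>
    first
    | exact h
    | exact trivial
    | exact Eq.symm h
    | exact Or.imp Eq.symm (fun h' => h'.symm) h

theorem relQ_good (G : SimpleGraph ℕ) : Good1 Q.top (relQ G) := by
  constructor
  · intro g
    cases g <;> trivial
  · intro g g' h
    have key : ∀ x : Q, x ≠ .top → ∃ k, ¬ relQ G x k := by
      intro x hx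
      cases x with
      | top => exact absurd rfl hx
      | v n =>
        refine ⟨.w (n + 1), ?_⟩
        intro h2
        have h3 : n = n + 1 := h2
        omega
      | w n => exact ⟨.w n, fun h => h⟩
    cases g with
    | top =>
      obtain ⟨k, hk⟩ := key g' (Ne.symm h)
      exact ⟨k, fun h2 => hk (h2.1 trivial)⟩
    | v n =>
      cases g' with
      | top =>
        obtain ⟨k, hk⟩ := key (.v n) h
        exact ⟨k, fun h2 => hk (h2.2 trivial)⟩
      | v m =>
        refine ⟨.w n, fun h2 => ?_⟩
        have h3 : m = n := h2.1 rfl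
        exact h (by rw [h3])
      | w m => exact ⟨.w n, fun h2 => h2.1 rfl⟩
    | w n =>
      cases g' with
      | top =>
        obtain ⟨k, hk⟩ := key (.w n) h
        exact ⟨k, fun h2 => hk (h2.2 trivial)⟩
      | v m => exact ⟨.w m, fun h2 => h2.2 rfl⟩
      | w m =>
        refine ⟨.v n, fun h2 => ?_⟩
        have h3 : m = n := h2.1 rfl
        exact h (by rw [h3])

theorem relQ_top {G : SimpleGraph ℕ} {a : Q} (h : ∀ b, relQ G a b) : a = .top := by
  cases a with
  | top => rfl
  | v n =>
    have h3 : n = n + 1 := h (.w (n + 1))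
    omega
  | w n => exact (h (.w n)).elim

theorem relQ_loop {G : SimpleGraph ℕ} {a : Q} (h : relQ G a a) : a = .top ∨ ∃ n, a = .v n := by
  cases a with
  | top => exact Or.inl rfl
  | v n => exact Or.inr ⟨n, rfl⟩
  | w n => exact h.elim

theorem relQ_iso_iff (G H : SimpleGraph ℕ) :
    (∃ ψ : Q ≃ Q, ∀ g k, relQ G g k ↔ relQ H (ψ g) (ψ k)) ↔ Nonempty (G ≃g H) := by
  constructor
  · rintro ⟨ψ, hψ⟩
    have htop : ψ .top = .top := by
      apply relQ_top (G := H)
      intro b
      have h1 : relQ G .top (ψ.symm b) := trivial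
      have h2 := (hψ _ _).1 h1
      rwa [Equiv.apply_symm_apply] at h2
    have hv : ∀ n, ∃ m, ψ (.v n) = .v m := by
      intro n
      have h1 : relQ G (.v n) (.v n) := Or.inl rfl
      rcases relQ_loop ((hψ _ _).1 h1) with h2 | h2
      · exfalso
        have h3 := ψ.injective (h2.trans htop.symm)
        cases h3
      · exact h2
    choose τ hτ using hv
    have hinj : Function.Injective τ := by
      intro a b hab
      have h1 : ψ (.v a) = ψ (.v b) := by rw [hτ, hτ, hab]
      have h2 := ψ.injective h1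
      cases h2
      rfl
    have hsurj : Function.Surjective τ := by
      intro m
      have h1 : relQ H (.v m) (.v m) := Or.inl rfl
      have h2 : relQ G (ψ.symm (.v m)) (ψ.symm (.v m)) := by
        rw [hψ, Equiv.apply_symm_apply]; exact h1
      rcases relQ_loop h2 with h3 | ⟨n, h3⟩
      · exfalso
        have h4 : ψ .top = .v m := by rw [← h3, Equiv.apply_symm_apply]
        rw [htop] at h4
        cases h4
      · refine ⟨n, ?_⟩
        have h4 : ψ (.v n) = .v m := by rw [← h3, Equiv.apply_symm_apply]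
        rw [hτ] at h4
        cases h4
        rfl
    refine ⟨⟨Equiv.ofBijective τ ⟨hinj, hsurj⟩, ?_⟩⟩
    intro n m
    show H.Adj (τ n) (τ m) ↔ G.Adj n m
    have h1 := hψ (.v n) (.v m)
    rw [hτ, hτ] at h1
    have h2 : (n = m ∨ G.Adj n m) ↔ (τ n = τ m ∨ H.Adj (τ n) (τ m)) := h1
    by_cases hnm : n = m
    · subst hnm
      simp
    · have h3 : τ n ≠ τ m := hinj.ne hnm
      simp only [hnm, h3, false_or] at h2
      exact h2.symm
  · rintro ⟨e⟩
    refine ⟨⟨fun x => match x with
      | .top => .top
      | .v n => .v (e n)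
      | .w n => .w (e n), fun x => match x with
      | .top => .top
      | .v n => .v (e.symm n)
      | .w n => .w (e.symm n), ?_, ?_⟩, ?_⟩
    · intro x
      cases x <;> simp
    · intro x
      cases x <;> simp
    · intro g k
      cases g with
      | top => exact Iff.rfl
      | v n =>
        cases k with
        | top => exact Iff.rfl
        | v m =>
          show (n = m ∨ G.Adj n m) ↔ (e n = e m ∨ H.Adj (e n) (e m))
          rw [e.map_adj_iff, e.injective.eq_iff]
        | w m =>
          show (n = m) ↔ (e n = e m)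
          rw [e.injective.eq_iff]
      | w n =>
        cases k with
        | top => exact Iff.rfl
        | v m =>
          show (n = m) ↔ (e n = e m)
          rw [e.injective.eq_iff]
        | w m => exact Iff.rfl

theorem relQ_cl {X : Type*} [TopologicalSpace X] {f : X → SimpleGraph ℕ} (hf : Continuous f)
    (a b : Q) : Cl (fun x => relQ (f x) a b) := by
  cases a with
  | top => exact Cl.congr (Cl.const True) (fun x => Iff.rfl)
  | v n =>
    cases b with
    | top => exact Cl.congr (Cl.const True) (fun x => Iff.rfl)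
    | v m => exact Cl.congr ((Cl.const (n = m)).or ((adj_cl n m).comp hf)) (fun x => Iff.rfl)
    | w m => exact Cl.congr (Cl.const (n = m)) (fun x => Iff.rfl)
  | w n =>
    cases b with
    | top => exact Cl.congr (Cl.const True) (fun x => Iff.rfl)
    | v m => exact Cl.congr (Cl.const (n = m)) (fun x => Iff.rfl)
    | w m => exact Cl.congr (Cl.const False) (fun x => Iff.rfl)

/-- a finitely stable graph on `ℕ` from which `G` can be recovered -/
noncomputable def stab (G : SimpleGraph ℕ) : SimpleGraph ℕ :=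
  toNat (Gam (fun _ => relQ G) (fun _ => relQ_symm G))

theorem stab_stable (G : SimpleGraph ℕ) : FinitelyStable (stab G) := by
  unfold stab
  rw [toNat_stable]
  exact stable_const _ _

theorem stab_iso (G H : SimpleGraph ℕ) : Nonempty (stab G ≃g stab H) ↔ Nonempty (G ≃g H) := by
  rw [← relQ_iso_iff G H]
  constructor
  · rintro ⟨φ⟩
    exact gam_const_iso_iff (relQ_symm G) (relQ_symm H) (relQ_good G) (relQ_good H)
      ((toNatIso _).symm.trans (φ.trans (toNatIso _)))
  · rintro ⟨ψ, hψ⟩
    obtain ⟨ι⟩ := gam_const_iso (relQ_symm G) (relQ_symm H) ψ hψ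
    exact ⟨(toNatIso _).trans (ι.trans (toNatIso _).symm)⟩

theorem stab_continuous : Continuous stab := by
  apply continuous_graph
  intro m n
  refine Cl.congr ((Cl.const ((eW Q).symm m ≠ (eW Q).symm n)).and
    ((Cl.const (((eW Q).symm m).1 = ((eW Q).symm n).1)).and
    (((Cl.const (((eW Q).symm m).2.1 = ((eW Q).symm n).2.1)).and
    (relQ_cl (f := fun G => G) continuous_id ((eW Q).symm m).2.2.1 ((eW Q).symm n).2.2.1)).iff
    (Cl.const (s(((eW Q).symm m).2, ((eW Q).symm n).2) ∉ ((eW Q).symm m).1.1))))) ?_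
  intro x
  exact Iff.rfl

end Pool.Agent.H74FS
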