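import Pool.Agent.H74FS.Core

namespace Pool.Agent.H74FS

open Classical

section Olig

variable {V : Type*}

/-- The automorphism group of `G` is oligomorphic: for every `n` it has only finitely many
orbits on `n`-tuples of vertices. -/
def Oligomorphic (G : SimpleGraph V) : Prop :=
  ∀ n : ℕ, ∃ T : Finset (Fin n → V), ∀ x : Fin n → V, ∃ y ∈ T, ∃ α : G ≃g G, ∀ i, α (y i) = x i

/-- vertices off `x` with adjacency pattern `p` to `x` -/
def Nb (G : SimpleGraph V) {n : ℕ} (x : Fin n → V) (p : Fin n → Bool) : Set V :=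
  {z | ∀ i, z ≠ x i ∧ (G.Adj z (x i) ↔ p i = true)}

theorem Nb_iso {V' : Type*} {G : SimpleGraph V} {G' : SimpleGraph V'} (φ : G ≃g G') {n : ℕ}
    (x : Fin n → V) (p : Fin n → Bool) : Nb G' (fun i => φ (x i)) p = φ '' Nb G x p := by
  ext z
  constructor
  · intro hz
    refine ⟨φ.symm z, ?_, by simp⟩
    intro i
    have h1 := hz i
    have h2 : φ (φ.symm z) = z := by simp
    rw [← h2, φ.map_adj_iff, φ.injective.ne_iff] at h1
    exact h1
  · rintro ⟨y, hy, rfl⟩ i
    rw [φ.map_adj_iff, φ.injective.ne_iff]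
    exact hy i

theorem Nb_bound {G : SimpleGraph V} (hG : Oligomorphic G) {n : ℕ} (p : Fin n → Bool) :
    ∃ b, ∀ x : Fin n → V, (Nb G x p).ncard ≤ b := by
  obtain ⟨T, hT⟩ := hG n
  refine ⟨T.sup (fun y => (Nb G y p).ncard), ?_⟩
  intro x
  obtain ⟨y, hy, α, hα⟩ := hT x
  have h1 : x = fun i => α (y i) := funext fun i => (hα i).symm
  rw [h1, Nb_iso, Set.ncard_image_of_injective _ α.injective]
  exact Finset.le_sup (f := fun y => (Nb G y p).ncard) hy

/-- if the finite values of `|N(x,p)|` are bounded then all these sets are infinite -/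
theorem Nb_infinite [Infinite V] {G : SimpleGraph V} (hG : FinitelyStable G) {n : ℕ}
    (p : Fin n → Bool) (hb : ∃ b, ∀ x : Fin n → V, (Nb G x p).Finite → (Nb G x p).ncard ≤ b)
    (x : Fin n → V) (hx : Function.Injective x) : (Nb G x p).Infinite := by
  intro hfin
  obtain ⟨b, hb⟩ := hb
  have hcof : (Set.range x)ᶜ.Infinite := (Set.finite_range x).infinite_compl
  obtain ⟨Z, hZ1, hZ2⟩ := hcof.exists_subset_card_eq (b + 1)
  have hZx : ∀ z ∈ Z, ∀ i, z ≠ x i := by
    intro z hz i h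
    exact hZ1 hz ⟨i, h.symm⟩
  let F : Finset (Sym2 V) := ((Z ×ˢ (Finset.univ : Finset (Fin n))).filter
    (fun q => ¬ (G.Adj q.1 (x q.2) ↔ p q.2 = true))).image (fun q => s(q.1, x q.2))
  have hF : ∀ z i, z ∉ Set.range x → (s(z, x i) ∈ F ↔ z ∈ Z ∧ ¬ (G.Adj z (x i) ↔ p i = true)) := by
    intro z i hz
    constructor
    · intro h
      rw [Finset.mem_image] at h
      obtain ⟨q, hq, hq2⟩ := h
      rw [Finset.mem_filter, Finset.mem_product] at hq
      rw [Sym2.eq_iff] at hq2
      rcases hq2 with h2 | h2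
      · have h3 := hx h2.2
        rw [← h2.1, ← h3]
        exact ⟨hq.1.1, hq.2⟩
      · exact absurd ⟨q.2, h2.2⟩ hz
    · rintro ⟨h1, h2⟩
      rw [Finset.mem_image]
      refine ⟨(z, i), ?_, rfl⟩
      rw [Finset.mem_filter, Finset.mem_product]
      exact ⟨⟨h1, Finset.mem_univ _⟩, h2⟩
  have hadj : ∀ z i, z ∉ Set.range x → ((flip G F).Adj z (x i) ↔
      (G.Adj z (x i) ↔ ¬ (z ∈ Z ∧ ¬ (G.Adj z (x i) ↔ p i = true)))) := by
    intro z i hz
    rw [flip_adj, hF z i hz]
    constructor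
    · exact fun h => h.2
    · intro h
      exact ⟨fun h2 => hz ⟨i, h2.symm⟩, h⟩
  have hsub1 : (Z : Set V) ⊆ Nb (flip G F) x p := by
    intro z hz i
    refine ⟨hZx z hz i, ?_⟩
    have h1 : z ∈ Z := hz
    rw [hadj z i (hZ1 hz)]
    tauto
  have hsub2 : Nb (flip G F) x p ⊆ Nb G x p ∪ Z := by
    intro z hz
    by_cases h1 : z ∈ Z
    · exact Or.inr h1
    · left
      intro i
      have h2 := hz i
      have h3 : z ∉ Set.range x := by
        rintro ⟨j, hj⟩
        exact (hz j).1 hj.symm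
      rw [hadj z i h3] at h2
      tauto
  have hfin' : (Nb (flip G F) x p).Finite := (hfin.union Z.finite_toSet).subset hsub2
  have hcard : b + 1 ≤ (Nb (flip G F) x p).ncard := by
    rw [← hZ2, ← Set.ncard_coe_finset]
    exact Set.ncard_le_ncard hsub1 hfin'
  obtain ⟨φ⟩ := hG F
  have h1 := hb (fun i => φ (x i)) (by rw [Nb_iso]; exact hfin'.image _)
  rw [Nb_iso, Set.ncard_image_of_injective _ φ.injective] at h1
  omega

/-- the defining property of the Rado graph -/
def RadoProp (G : SimpleGraph V) : Prop :=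
  ∀ U W : Finset V, Disjoint U W →
    ∃ z, z ∉ U ∧ z ∉ W ∧ (∀ u ∈ U, G.Adj z u) ∧ (∀ w ∈ W, ¬ G.Adj z w)

theorem rado_of_bounded [Infinite V] {G : SimpleGraph V} (hG : FinitelyStable G)
    (hb : ∀ (n : ℕ) (p : Fin n → Bool), ∃ b, ∀ x : Fin n → V, (Nb G x p).Finite →
      (Nb G x p).ncard ≤ b) : RadoProp G := by
  intro U W hUW
  let e := (U ∪ W).equivFin
  let x : Fin (U ∪ W).card → V := fun i => (e.symm i).1
  have hx : Function.Injective x := Subtype.val_injective.comp e.symm.injective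
  obtain ⟨z, hz⟩ := (Nb_infinite hG (fun i => decide (x i ∈ U)) (hb _ _) x hx).nonempty
  have hmem : ∀ v ∈ U ∪ W, ∃ i, x i = v := by
    intro v hv
    exact ⟨e ⟨v, hv⟩, by simp [x]⟩
  refine ⟨z, ?_, ?_, ?_, ?_⟩
  · intro h
    obtain ⟨i, hi⟩ := hmem z (Finset.mem_union_left _ h)
    exact (hz i).1 hi.symm
  · intro h
    obtain ⟨i, hi⟩ := hmem z (Finset.mem_union_right _ h)
    exact (hz i).1 hi.symm
  · intro u hu
    obtain ⟨i, hi⟩ := hmem u (Finset.mem_union_left _ hu)
    have h1 := (hz i).2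
    rw [hi] at h1
    exact h1.2 (by
      show decide (x i ∈ U) = true
      rw [hi]
      exact decide_eq_true hu)
  · intro w hw
    obtain ⟨i, hi⟩ := hmem w (Finset.mem_union_right _ hw)
    have h1 := (hz i).2
    rw [hi] at h1
    intro h2
    have h3 := h1.1 h2
    rw [decide_eq_true_eq, hi] at h3
    exact (Finset.disjoint_left.1 hUW h3) hw

theorem rado_of_oligomorphic [Infinite V] {G : SimpleGraph V} (hG : FinitelyStable G)
    (hO : Oligomorphic G) : RadoProp G := by
  apply rado_of_bounded hG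
  intro n p
  obtain ⟨b, hb⟩ := Nb_bound hO p
  exact ⟨b, fun x _ => hb x⟩

end Olig

end Pool.Agent.H74FS
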