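import Pool.Agent.H74FS.Olig

namespace Pool.Agent.H74FS

open Classical

theorem back_forth (Q : Finset (ℕ × ℕ) → Prop) (h0 : Q ∅)
    (hf : ∀ f, Q f → ∀ a, ∃ b, Q (insert (a, b) f))
    (hb : ∀ f, Q f → ∀ b, ∃ a, Q (insert (a, b) f)) :
    ∃ s : ℕ → Finset (ℕ × ℕ), (∀ n, Q (s n)) ∧ Monotone s ∧ (∀ a, ∃ b n, (a, b) ∈ s n) ∧
      (∀ b, ∃ a n, (a, b) ∈ s n) := by
  have hstep : ∀ (k : ℕ) (f : {f // Q f}), ∃ g : {f // Q f}, f.1 ⊆ g.1 ∧ (∃ b, (k, b) ∈ g.1) ∧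
      (∃ a, (a, k) ∈ g.1) := by
    intro k f
    obtain ⟨b, h1⟩ := hf f.1 f.2 k
    obtain ⟨a, h2⟩ := hb _ h1 k
    refine ⟨⟨_, h2⟩, ?_, ⟨b, ?_⟩, ⟨a, ?_⟩⟩
    · exact (Finset.subset_insert _ _).trans (Finset.subset_insert _ _)
    · exact Finset.mem_insert_of_mem (Finset.mem_insert_self _ _)
    · exact Finset.mem_insert_self _ _
  choose step hs1 hs2 hs3 using hstep
  let s : ℕ → {f // Q f} := fun n => Nat.rec ⟨∅, h0⟩ (fun k f => step k f) n
  have hs : ∀ n, s (n + 1) = step n (s n) := fun n => rfl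
  refine ⟨fun n => (s n).1, fun n => (s n).2, ?_, ?_, ?_⟩
  · apply monotone_nat_of_le_succ
    intro n
    show (s n).1 ⊆ (s (n + 1)).1
    rw [hs]
    exact hs1 n (s n)
  · intro a
    obtain ⟨b, h1⟩ := hs2 a (s a)
    exact ⟨b, a + 1, by show _ ∈ (s (a + 1)).1; rw [hs]; exact h1⟩
  · intro b
    obtain ⟨a, h1⟩ := hs3 b (s b)
    exact ⟨a, b + 1, by show _ ∈ (s (b + 1)).1; rw [hs]; exact h1⟩

def PI (G G' : SimpleGraph ℕ) (f : Finset (ℕ × ℕ)) : Prop :=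
  ∀ p ∈ f, ∀ q ∈ f, (p.1 = q.1 ↔ p.2 = q.2) ∧ (G.Adj p.1 q.1 ↔ G'.Adj p.2 q.2)

theorem PI.swap {G G' : SimpleGraph ℕ} {f g : Finset (ℕ × ℕ)} (h : ∀ p ∈ f, p.swap ∈ g)
    (hg : PI G' G g) : PI G G' f := by
  intro p hp q hq
  have h1 := hg _ (h p hp) _ (h q hq)
  exact ⟨h1.1.symm, h1.2.symm⟩

theorem PI.forth {G G' : SimpleGraph ℕ} (hG' : RadoProp G') {f : Finset (ℕ × ℕ)}
    (hf : PI G G' f) (a : ℕ) : ∃ b, PI G G' (insert (a, b) f) := by
  by_cases h : ∃ b, (a, b) ∈ f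
  · obtain ⟨b, hb⟩ := h
    refine ⟨b, ?_⟩
    rw [Finset.insert_eq_of_mem hb]
    exact hf
  · have hdis : Disjoint ((f.filter (fun p => G.Adj a p.1)).image Prod.snd)
        ((f.filter (fun p => ¬ G.Adj a p.1)).image Prod.snd) := by
      rw [Finset.disjoint_left]
      intro y h1 h2
      rw [Finset.mem_image] at h1 h2
      obtain ⟨p, hp, hp2⟩ := h1
      obtain ⟨q, hq, hq2⟩ := h2
      rw [Finset.mem_filter] at hp hq
      have h3 := (hf p hp.1 q hq.1).1.2 (hp2.trans hq2.symm)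
      apply hq.2
      rw [← h3]
      exact hp.2
    obtain ⟨z, hz1, hz2, hz3, hz4⟩ := hG' _ _ hdis
    have key : ∀ p ∈ f, (a ≠ p.1 ∧ z ≠ p.2) ∧ (G.Adj a p.1 ↔ G'.Adj z p.2) := by
      intro p hp
      by_cases h5 : G.Adj a p.1
      · have h6 : p.2 ∈ (f.filter (fun p => G.Adj a p.1)).image Prod.snd := by
          rw [Finset.mem_image]
          exact ⟨p, by rw [Finset.mem_filter]; exact ⟨hp, h5⟩, rfl⟩
        refine ⟨⟨?_, ?_⟩, fun _ => hz3 _ h6, fun _ => h5⟩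
        · rintro rfl; exact h ⟨p.2, hp⟩
        · rintro rfl; exact hz1 h6
      · have h6 : p.2 ∈ (f.filter (fun p => ¬ G.Adj a p.1)).image Prod.snd := by
          rw [Finset.mem_image]
          exact ⟨p, by rw [Finset.mem_filter]; exact ⟨hp, h5⟩, rfl⟩
        refine ⟨⟨?_, ?_⟩, fun h7 => absurd h7 h5, fun h7 => absurd h7 (hz4 _ h6)⟩
        · rintro rfl; exact h ⟨p.2, hp⟩
        · rintro rfl; exact hz2 h6
    refine ⟨z, ?_⟩
    intro p hp q hq
    rw [Finset.mem_insert] at hp hq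
    rcases hp with rfl | hp
    · rcases hq with rfl | hq
      · simp
      · have h5 := key q hq
        exact ⟨⟨fun h6 => absurd h6 h5.1.1, fun h6 => absurd h6 h5.1.2⟩, h5.2⟩
    · rcases hq with rfl | hq
      · have h5 := key p hp
        refine ⟨⟨fun h6 => absurd h6.symm h5.1.1, fun h6 => absurd h6.symm h5.1.2⟩, ?_⟩
        rw [G.adj_comm, G'.adj_comm]
        exact h5.2
      · exact hf p hp q hq

theorem PI.back {G G' : SimpleGraph ℕ} (hG : RadoProp G) {f : Finset (ℕ × ℕ)}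
    (hf : PI G G' f) (b : ℕ) : ∃ a, PI G G' (insert (a, b) f) := by
  have h1 : PI G' G (f.image Prod.swap) := by
    apply PI.swap (g := f) _ hf
    intro p hp
    rw [Finset.mem_image] at hp
    obtain ⟨q, hq, rfl⟩ := hp
    rwa [Prod.swap_swap]
  obtain ⟨a, ha⟩ := h1.forth hG b
  refine ⟨a, PI.swap (g := insert (b, a) (f.image Prod.swap)) ?_ ha⟩
  intro p hp
  rw [Finset.mem_insert] at hp
  rcases hp with rfl | hp
  · exact Finset.mem_insert_self _ _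
  · exact Finset.mem_insert_of_mem (Finset.mem_image_of_mem _ hp)

theorem rado_unique {G G' : SimpleGraph ℕ} (hG : RadoProp G) (hG' : RadoProp G') :
    Nonempty (G ≃g G') := by
  obtain ⟨s, hs, hmono, hF, hB⟩ := back_forth (PI G G')
    (fun p hp => absurd hp (Finset.notMem_empty _)) (fun f hf a => hf.forth hG' a)
    (fun f hf b => hf.back hG b)
  choose F nF hF using hF
  have key : ∀ p q : ℕ × ℕ, (∃ n, p ∈ s n) → (∃ n, q ∈ s n) →
      (p.1 = q.1 ↔ p.2 = q.2) ∧ (G.Adj p.1 q.1 ↔ G'.Adj p.2 q.2) := by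
    rintro p q ⟨n, hn⟩ ⟨m, hm⟩
    exact hs (max n m) p (hmono (le_max_left _ _) hn) q (hmono (le_max_right _ _) hm)
  have hinj : Function.Injective F := by
    intro a a' haa
    exact (key (a, F a) (a', F a') ⟨_, hF a⟩ ⟨_, hF a'⟩).1.2 haa
  have hsurj : Function.Surjective F := by
    intro b
    obtain ⟨a, n, h1⟩ := hB b
    exact ⟨a, (key (a, F a) (a, b) ⟨_, hF a⟩ ⟨n, h1⟩).1.1 rfl⟩
  refine ⟨⟨Equiv.ofBijective F ⟨hinj, hsurj⟩, ?_⟩⟩
  intro a a'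
  exact (key (a, F a) (a', F a') ⟨_, hF a⟩ ⟨_, hF a'⟩).2.symm

theorem rado_flip {G : SimpleGraph ℕ} (hG : RadoProp G) (F : Finset (Sym2 ℕ)) :
    RadoProp (flip G F) := by
  intro U W hUW
  obtain ⟨E, hE⟩ := exists_ends F
  have hdis : Disjoint (U ∪ (E \ W)) W := by
    rw [Finset.disjoint_union_left]
    exact ⟨hUW, Finset.sdiff_disjoint⟩
  obtain ⟨z, h1, h2, h3, h4⟩ := hG _ _ hdis
  rw [Finset.mem_union, not_or, Finset.mem_sdiff, not_and, not_not] at h1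
  have hzE : z ∉ E := fun h => h2 (h1.2 h)
  have hzF : ∀ y, s(z, y) ∉ F := fun y h => hzE (hE z y h).1
  refine ⟨z, h1.1, h2, ?_, ?_⟩
  · intro u hu
    rw [flip_adj]
    refine ⟨fun h => h1.1 (by rw [h]; exact hu), fun _ => hzF u, fun _ => ?_⟩
    exact h3 u (Finset.mem_union_left _ hu)
  · intro w hw h5
    rw [flip_adj] at h5
    exact h4 w hw (h5.2.2 (hzF w))

theorem stable_of_rado {G : SimpleGraph ℕ} (hG : RadoProp G) : FinitelyStable G :=
  fun F => rado_unique (rado_flip hG F) hG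

end Pool.Agent.H74FS
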