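import Pool.Agent.H74FS.Core

namespace Pool.Agent.H74FS

open Classical

/-- neighbourhoods differing in finitely many places -/
def alm {V : Type*} (G : SimpleGraph V) (u v : V) : Prop :=
  {w | ¬ (G.Adj u w ↔ G.Adj v w)}.Finite

/-- infinitely many edges between the classes of `u` and `v` -/
def dns {V : Type*} (G : SimpleGraph V) (u v : V) : Prop :=
  {p : V × V | alm G u p.1 ∧ alm G v p.2 ∧ G.Adj p.1 p.2}.Infinite

theorem alm_map {V V' : Type*} {G : SimpleGraph V} {G' : SimpleGraph V'} (φ : G ≃g G')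
    {u v : V} (h : alm G u v) : alm G' (φ u) (φ v) := by
  refine (Set.Finite.image φ h).subset ?_
  intro w hw
  refine ⟨φ.symm w, ?_, by simp⟩
  intro h2
  apply hw
  have h3 : φ (φ.symm w) = w := by simp
  rw [← h3, φ.map_adj_iff, φ.map_adj_iff]
  exact h2

theorem alm_iso {V V' : Type*} {G : SimpleGraph V} {G' : SimpleGraph V'} (φ : G ≃g G')
    (u v : V) : alm G u v ↔ alm G' (φ u) (φ v) := by
  constructor
  · exact alm_map φ
  · intro h
    have := alm_map φ.symm h
    simpa using this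

theorem dns_map {V V' : Type*} {G : SimpleGraph V} {G' : SimpleGraph V'} (φ : G ≃g G')
    {u v : V} (h : dns G u v) : dns G' (φ u) (φ v) := by
  have hinj : Function.Injective (Prod.map φ φ) := Function.Injective.prodMap φ.injective φ.injective
  refine (Set.Infinite.image (f := Prod.map φ φ) hinj.injOn h).mono ?_
  rintro _ ⟨p, hp, rfl⟩
  refine ⟨alm_map φ hp.1, alm_map φ hp.2.1, ?_⟩
  show G'.Adj (φ p.1) (φ p.2)
  rw [φ.map_adj_iff]
  exact hp.2.2

theorem dns_iso {V V' : Type*} {G : SimpleGraph V} {G' : SimpleGraph V'} (φ : G ≃g G')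
    (u v : V) : dns G u v ↔ dns G' (φ u) (φ v) := by
  constructor
  · exact dns_map φ
  · intro h
    have := dns_map φ.symm h
    simpa using this

variable {B : Type}

def base (R : I B → B → B → Prop) (u v : W B) : Prop :=
  u.1 = v.1 ∧ u.2.1 = v.2.1 ∧ R u.1.1 u.2.2.1 v.2.2.1

def site (u : W B) : J B × ℕ × B := (u.1, u.2.1, u.2.2.1)

theorem site_eq {u v : W B} : site u = site v ↔ u.1 = v.1 ∧ u.2.1 = v.2.1 ∧ u.2.2.1 = v.2.2.1 := by
  constructor
  · intro h
    exact ⟨congrArg (fun x : J B × ℕ × B => x.1) h, congrArg (fun x : J B × ℕ × B => x.2.1) h,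
      congrArg (fun x : J B × ℕ × B => x.2.2) h⟩
  · rintro ⟨h1, h2, h3⟩
    unfold site
    rw [h1, h2, h3]

theorem base_congr (R : I B → B → B → Prop) {u v u' v' : W B} (h : site u = site u')
    (h' : site v = site v') : base R u v ↔ base R u' v' := by
  rw [site_eq] at h h'
  unfold base
  rw [h.1, h.2.1, h.2.2, h'.1, h'.2.1, h'.2.2]

structure Near (R : I B → B → B → Prop) (G : SimpleGraph (W B)) : Prop where
  loc : ∀ u, {v | u ≠ v ∧ ¬ (G.Adj u v ↔ base R u v)}.Finite
  pair : ∀ u v, {p : W B × W B | site p.1 = site u ∧ site p.2 = site v ∧ p.1 ≠ p.2 ∧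
    ¬ (G.Adj p.1 p.2 ↔ base R p.1 p.2)}.Finite

structure Good (t : B) (R : I B → B → B → Prop) : Prop where
  dom : ∀ F g, R F g t
  sep : ∀ F g g', g ≠ g' → ∃ k, ¬ (R F g k ↔ R F g' k)

theorem near_diff (R : I B → B → B → Prop) (h : ∀ F a b, R F a b → R F b a)
    (F' : Finset (Sym2 (W B))) (u v : W B) (huv : u ≠ v)
    (hd : ¬ ((flip (Gam R h) F').Adj u v ↔ base R u v)) :
    s(u, v) ∈ F' ∨ (u.1 = v.1 ∧ s(u.2, v.2) ∈ u.1.1) := by
  by_contra hcon
  rw [not_or, not_and] at hcon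
  apply hd
  rw [flip_adj, Gam_adj]
  unfold base
  constructor
  · rintro ⟨_, h2⟩
    have h3 := h2.2 hcon.1
    have h4 := h3.2.2.2 (hcon.2 h3.2.1)
    exact ⟨h3.2.1, h4.1, h4.2⟩
  · rintro ⟨h1, h2, h3⟩
    refine ⟨huv, ⟨fun _ => hcon.1, fun _ => ⟨huv, h1, ⟨fun _ => hcon.2 h1, fun _ => ⟨h2, h3⟩⟩⟩⟩⟩

theorem near_flip (R : I B → B → B → Prop) (h : ∀ F a b, R F a b → R F b a)
    (F' : Finset (Sym2 (W B))) : Near R (flip (Gam R h) F') := by
  obtain ⟨E', hE'⟩ := exists_ends F'
  constructor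
  · intro u
    obtain ⟨E, hE⟩ := exists_ends u.1.1
    refine (Finset.finite_toSet (E' ∪ ({u.1} ×ˢ E))).subset ?_
    rintro v ⟨h1, h2⟩
    rw [Finset.mem_coe, Finset.mem_union, Finset.mem_product, Finset.mem_singleton]
    rcases near_diff R h F' u v h1 h2 with h3 | h3
    · exact Or.inl (hE' _ _ h3).2
    · exact Or.inr ⟨h3.1.symm, (hE _ _ h3.2).2⟩
  · intro u v
    obtain ⟨E, hE⟩ := exists_ends u.1.1
    refine (Finset.finite_toSet ((E' ×ˢ E') ∪ (({u.1} ×ˢ E) ×ˢ ({u.1} ×ˢ E)))).subset ?_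
    rintro p ⟨h1, h2, h3, h4⟩
    rw [site_eq] at h1 h2
    rw [Finset.mem_coe, Finset.mem_union, Finset.mem_product, Finset.mem_product,
      Finset.mem_product, Finset.mem_product, Finset.mem_singleton, Finset.mem_singleton]
    rcases near_diff R h F' p.1 p.2 h3 h4 with h5 | h5
    · exact Or.inl (hE' _ _ h5)
    · have h6 := h5.2
      rw [h1.1] at h6
      exact Or.inr ⟨⟨h1.1, (hE _ _ h6).1⟩, ⟨h5.1.symm.trans h1.1, (hE _ _ h6).2⟩⟩

theorem near_gam (R : I B → B → B → Prop) (h : ∀ F a b, R F a b → R F b a) :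
    Near R (Gam R h) := by
  have := near_flip R h ∅
  rwa [flip_empty] at this

def mk (u : W B) (g : B) (k : ℕ) : W B := (u.1, (u.2.1, g, k))

theorem mk_inj (u : W B) (g : B) : Function.Injective (mk u g) := by
  intro a b h
  have := congrArg (fun x : W B => x.2.2.2) h
  exact this

theorem alm_iff {t : B} {R : I B → B → B → Prop} {G : SimpleGraph (W B)} (hN : Near R G)
    (hG : Good t R) (u v : W B) : alm G u v ↔ site u = site v := by
  constructor
  · intro h
    by_contra hne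
    have key : ∃ w : ℕ → W B, Function.Injective w ∧
        ∀ k, ¬ (base R u (w k) ↔ base R v (w k)) := by
      by_cases h1 : u.1 = v.1 ∧ u.2.1 = v.2.1
      · have h2 : u.2.2.1 ≠ v.2.2.1 := by
          intro h3
          exact hne (site_eq.2 ⟨h1.1, h1.2, h3⟩)
        obtain ⟨g, hg⟩ := hG.sep u.1.1 _ _ h2
        refine ⟨mk u g, mk_inj u g, ?_⟩
        intro k h3
        apply hg
        unfold base mk at h3
        simp only [true_and] at h3
        rw [h3]
        rw [← h1.1, ← h1.2]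
        simp only [true_and]
      · refine ⟨mk u t, mk_inj u t, ?_⟩
        intro k h3
        have h4 : base R u (mk u t k) := ⟨rfl, rfl, hG.dom _ _⟩
        have h5 := h3.1 h4
        exact h1 ⟨h5.1.symm, h5.2.1.symm⟩
    obtain ⟨w, hw, hw2⟩ := key
    have hinf := Set.infinite_range_of_injective hw
    apply hinf
    have hfin := (h.union (((hN.loc u).union (hN.loc v)).union (Set.toFinite {u, v})))
    refine hfin.subset ?_
    rintro _ ⟨k, rfl⟩
    by_contra hcon
    simp only [Set.mem_union, not_or, Set.mem_setOf_eq, not_not, not_and, Set.mem_insert_iff,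
      Set.mem_singleton_iff] at hcon
    obtain ⟨c1, ⟨c2, c3⟩, c4, c5⟩ := hcon
    exact hw2 k ((c2 (Ne.symm c4)).symm.trans (c1.trans (c3 (Ne.symm c5))))
  · intro h
    have hfin := (((hN.loc u).union (hN.loc v)).union (Set.toFinite {u, v}))
    refine hfin.subset ?_
    intro w hw
    by_contra hcon
    simp only [Set.mem_union, not_or, Set.mem_setOf_eq, not_not, not_and, Set.mem_insert_iff,
      Set.mem_singleton_iff] at hcon
    obtain ⟨⟨c2, c3⟩, c4, c5⟩ := hcon
    apply hw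
    rw [c2 (Ne.symm c4), c3 (Ne.symm c5)]
    exact base_congr R h rfl

theorem dns_iff {t : B} {R : I B → B → B → Prop} {G : SimpleGraph (W B)} (hN : Near R G)
    (hG : Good t R) (u v : W B) : dns G u v ↔ base R u v := by
  constructor
  · intro h
    by_contra hne
    apply h
    refine (hN.pair u v).subset ?_
    rintro p ⟨h1, h2, h3⟩
    rw [alm_iff hN hG] at h1 h2
    refine ⟨h1.symm, h2.symm, h3.ne, ?_⟩
    intro h4
    apply hne
    rw [base_congr R h1 h2]
    exact h4.1 h3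
  · intro h hfin
    have hinj : Function.Injective (fun k : ℕ => (mk u u.2.2.1 0, mk v v.2.2.1 (k + 1))) := by
      intro a b hab
      simp only [Prod.mk.injEq, true_and] at hab
      have := mk_inj v v.2.2.1 hab
      omega
    apply Set.infinite_range_of_injective hinj
    refine (hfin.union (hN.pair u v)).subset ?_
    rintro _ ⟨k, rfl⟩
    by_cases h1 : G.Adj (mk u u.2.2.1 0) (mk v v.2.2.1 (k + 1))
    · left
      refine ⟨?_, ?_, h1⟩
      · rw [alm_iff hN hG]; rfl
      · rw [alm_iff hN hG]; rfl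
    · right
      refine ⟨rfl, rfl, ?_, ?_⟩
      · intro h2
        have := congrArg (fun x : W B => x.2.2.2) h2
        simp [mk] at this
      · intro h2
        apply h1
        rw [h2]
        exact h

theorem recover {t t' : B} {R S : I B → B → B → Prop} {G G' : SimpleGraph (W B)}
    (hN : Near R G) (hG : Good t R) (hN' : Near S G') (hG' : Good t' S) (φ : G ≃g G')
    (j : J B) (a : ℕ) :
    ∃ (j' : J B) (a' : ℕ) (ψ : B ≃ B), (∀ g k, R j.1 g k ↔ S j'.1 (ψ g) (ψ k)) ∧
      ∀ g k, site (φ (j, (a, g, k))) = (j', a', ψ g) := by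
  have hs : ∀ u v, site u = site v ↔ site (φ u) = site (φ v) := by
    intro u v
    rw [← alm_iff hN hG, ← alm_iff hN' hG', alm_iso φ]
  have hb : ∀ u v, base R u v ↔ base S (φ u) (φ v) := by
    intro u v
    rw [← dns_iff hN hG, ← dns_iff hN' hG', dns_iso φ]
  set u0 : W B := (j, (a, t, 0)) with hu0
  have hcopy : ∀ g k, (φ (j, (a, g, k))).1 = (φ u0).1 ∧ (φ (j, (a, g, k))).2.1 = (φ u0).2.1 := by
    intro g k
    have h1 : base R (j, (a, g, k)) u0 := ⟨rfl, rfl, hG.dom _ _⟩
    have h2 := (hb _ _).1 h1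
    exact ⟨h2.1, h2.2.1⟩
  set ψ0 : B → B := fun g => (φ (j, (a, g, 0))).2.2.1 with hψ0
  have hsite : ∀ g k, site (φ (j, (a, g, k))) = ((φ u0).1, (φ u0).2.1, ψ0 g) := by
    intro g k
    have h1 : site (φ (j, (a, g, k))) = site (φ (j, (a, g, 0))) := by
      rw [← hs]; rfl
    rw [h1]
    have h2 := hcopy g 0
    show ((φ (j, (a, g, 0))).1, (φ (j, (a, g, 0))).2.1, (φ (j, (a, g, 0))).2.2.1) = _
    rw [h2.1, h2.2]
  have hinj : Function.Injective ψ0 := by
    intro g k hgk
    have h1 : site (φ (j, (a, g, 0))) = site (φ (j, (a, k, 0))) := by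
      rw [hsite, hsite, hgk]
    rw [← hs] at h1
    rw [site_eq] at h1
    exact h1.2.2
  have hsurj : Function.Surjective ψ0 := by
    intro g'
    set x : W B := φ.symm ((φ u0).1, ((φ u0).2.1, g', 0)) with hx
    set z : W B := φ.symm ((φ u0).1, ((φ u0).2.1, t', 0)) with hz
    have hφx : φ x = ((φ u0).1, ((φ u0).2.1, g', 0)) := by rw [hx]; simp
    have hφz : φ z = ((φ u0).1, ((φ u0).2.1, t', 0)) := by rw [hz]; simp
    have h1 : base R x z := by
      rw [hb, hφx, hφz]
      exact ⟨rfl, rfl, hG'.dom _ _⟩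
    have h2 : base R u0 z := by
      rw [hb, hφz]
      exact ⟨rfl, rfl, hG'.dom _ _⟩
    have h3 : x.1 = j := h1.1.trans h2.1.symm
    have h4 : x.2.1 = a := h1.2.1.trans h2.2.1.symm
    refine ⟨x.2.2.1, ?_⟩
    have h5 : site (φ (j, (a, x.2.2.1, 0))) = site (φ x) := by
      rw [← hs, site_eq]
      exact ⟨h3.symm, h4.symm, rfl⟩
    have h6 := (site_eq.1 h5).2.2
    rw [hφx] at h6
    exact h6
  refine ⟨(φ u0).1, (φ u0).2.1, Equiv.ofBijective ψ0 ⟨hinj, hsurj⟩, ?_, hsite⟩
  intro g k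
  show R j.1 g k ↔ S (φ u0).1.1 (ψ0 g) (ψ0 k)
  have h1 : R j.1 g k ↔ base R (j, (a, g, 0)) (j, (a, k, 0)) :=
    ⟨fun h => ⟨rfl, rfl, h⟩, fun h => h.2.2⟩
  rw [h1, hb]
  have h2 := hcopy g 0
  have h3 := hcopy k 0
  unfold base
  rw [h2.1, h2.2, h3.1, h3.2]
  simp only [true_and]
  rfl

end Pool.Agent.H74FS
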