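import Pool.Agent.H74FS.Core

namespace Pool.Agent.H74FS

open Classical

section General

variable {V : Type*}

theorem flip_compl (G : SimpleGraph V) (F : Finset (Sym2 V)) : flip Gᶜ F = (flip G F)ᶜ := by
  ext u v
  rw [flip_adj, SimpleGraph.compl_adj, SimpleGraph.compl_adj, flip_adj]
  tauto

theorem FinitelyStable.compl {G : SimpleGraph V} (h : FinitelyStable G) : FinitelyStable Gᶜ := by
  intro F
  obtain ⟨φ⟩ := h F
  rw [flip_compl]
  refine ⟨⟨φ.toEquiv, ?_⟩⟩
  intro u v
  show Gᶜ.Adj (φ u) (φ v) ↔ (flip G F)ᶜ.Adj u v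
  rw [SimpleGraph.compl_adj, SimpleGraph.compl_adj, φ.map_adj_iff, φ.injective.ne_iff]

/-- sets of vertices which span a copy of `K` and which no edge leaves -/
def Occ (G : SimpleGraph V) {n : ℕ} (K : SimpleGraph (Fin n)) : Set (Set V) :=
  {S | ∃ f : Fin n → V, Function.Injective f ∧ (∀ a b, G.Adj (f a) (f b) ↔ K.Adj a b) ∧
    (∀ a v, G.Adj (f a) v → v ∈ Set.range f) ∧ S = Set.range f}

theorem occ_iso {V' : Type*} {G : SimpleGraph V} {G' : SimpleGraph V'} (φ : G ≃g G') {n : ℕ}
    {K : SimpleGraph (Fin n)} {S : Set V} (hS : S ∈ Occ G K) : φ '' S ∈ Occ G' K := by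
  obtain ⟨f, h1, h2, h3, rfl⟩ := hS
  refine ⟨φ ∘ f, φ.injective.comp h1, ?_, ?_, ?_⟩
  · intro a b
    show G'.Adj (φ (f a)) (φ (f b)) ↔ _
    rw [φ.map_adj_iff]
    exact h2 a b
  · intro a v hv
    have h4 : G.Adj (f a) (φ.symm v) := by
      rw [← φ.map_adj_iff]
      simpa using hv
    obtain ⟨b, hb⟩ := h3 a _ h4
    refine ⟨b, ?_⟩
    show φ (f b) = v
    rw [hb]
    simp
  · rw [Set.range_comp]

/-- isolated vertices -/
def isoSet (G : SimpleGraph V) : Set V := {v | ∀ w, ¬ G.Adj v w}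

theorem isoSet_image {V' : Type*} {G : SimpleGraph V} {G' : SimpleGraph V'} (φ : G ≃g G') :
    isoSet G' = φ '' isoSet G := by
  ext v
  constructor
  · intro hv
    refine ⟨φ.symm v, ?_, by simp⟩
    intro w hw
    apply hv (φ w)
    rw [← φ.map_adj_iff] at hw
    simpa using hw
  · rintro ⟨u, hu, rfl⟩ w hw
    apply hu (φ.symm w)
    rw [← φ.map_adj_iff]
    simpa using hw

theorem exists_isolated {G : SimpleGraph V} (hG : FinitelyStable G) {v : V}
    (hv : (G.neighborSet v).Finite) : (isoSet G).Nonempty := by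
  obtain ⟨φ⟩ := hG (hv.toFinset.image (fun w => s(v, w)))
  rw [isoSet_image φ]
  refine ⟨φ v, v, ?_, rfl⟩
  intro w hw
  rw [flip_adj] at hw
  have h1 : s(v, w) ∈ hv.toFinset.image (fun w => s(v, w)) ↔ G.Adj v w := by
    rw [Finset.mem_image]
    constructor
    · rintro ⟨x, hx, hx2⟩
      rw [Set.Finite.mem_toFinset] at hx
      have h2 : G.Adj v x := hx
      rw [← SimpleGraph.mem_edgeSet, hx2, SimpleGraph.mem_edgeSet] at h2
      exact h2
    · intro h2
      exact ⟨w, by rw [Set.Finite.mem_toFinset]; exact h2, rfl⟩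
  rw [h1] at hw
  tauto

theorem isolated_infinite [Nontrivial V] {G : SimpleGraph V} (hG : FinitelyStable G)
    (hne : (isoSet G).Nonempty) : (isoSet G).Infinite := by
  intro hfin
  obtain ⟨v, hv⟩ := hne
  obtain ⟨w, hw⟩ := exists_ne v
  obtain ⟨φ⟩ := hG {s(v, w)}
  have h1 : isoSet (flip G {s(v, w)}) ⊆ isoSet G \ {v} := by
    intro x hx
    constructor
    · intro y hy
      apply hx y
      rw [flip_adj, Finset.mem_singleton]
      refine ⟨hy.ne, fun _ => ?_, fun _ => hy⟩
      intro h2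
      rw [Sym2.eq_iff] at h2
      rcases h2 with h2 | h2
      · rw [h2.1] at hy; exact hv y hy
      · rw [h2.2] at hy; exact hv x hy.symm
    · rintro rfl
      apply hx w
      rw [flip_adj, Finset.mem_singleton]
      exact ⟨hw.symm, fun h => absurd h (hv w), fun h => absurd rfl h⟩
  have h2 : (isoSet G).ncard = (isoSet (flip G {s(v, w)})).ncard := by
    rw [isoSet_image φ, Set.ncard_image_of_injective _ φ.injective]
  have h3 : (isoSet (flip G {s(v, w)})).ncard ≤ (isoSet G \ {v}).ncard :=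
    Set.ncard_le_ncard h1 (hfin.subset Set.diff_subset)
  have h4 : (isoSet G \ {v}).ncard < (isoSet G).ncard := Set.ncard_diff_singleton_lt_of_mem hv hfin
  omega

theorem occ_many {G : SimpleGraph V} (hG : FinitelyStable G) (hinf : (isoSet G).Infinite)
    {n : ℕ} (hn : 0 < n) (K : SimpleGraph (Fin n)) (m : ℕ) :
    ∃ g : Fin m → Set V, Function.Injective g ∧ ∀ i, g i ∈ Occ G K := by
  have := hinf.to_subtype
  obtain ⟨e⟩ : Nonempty (Fin m × Fin n ↪ isoSet G) :=
    ⟨(finProdFinEquiv.toEmbedding.trans Fin.valEmbedding).trans (Infinite.natEmbedding _)⟩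
  let f : Fin m × Fin n → V := fun x => (e x).1
  have hf : Function.Injective f := Subtype.val_injective.comp e.injective
  have hfi : ∀ x w, ¬ G.Adj (f x) w := fun x => (e x).2
  let F : Finset (Sym2 V) :=
    ((Finset.univ : Finset (Fin m × Fin n × Fin n)).filter (fun x => K.Adj x.2.1 x.2.2)).image
      (fun x => s(f (x.1, x.2.1), f (x.1, x.2.2)))
  have hF : ∀ i a y, s(f (i, a), y) ∈ F ↔ ∃ b, y = f (i, b) ∧ K.Adj a b := by
    intro i a y
    constructor
    · intro h
      rw [Finset.mem_image] at h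
      obtain ⟨x, hx, hx2⟩ := h
      rw [Finset.mem_filter] at hx
      rw [Sym2.eq_iff] at hx2
      rcases hx2 with h2 | h2
      · have h3 := hf h2.1
        rw [Prod.mk.injEq] at h3
        refine ⟨x.2.2, ?_, ?_⟩
        · rw [← h2.2, h3.1]
        · rw [← h3.2]; exact hx.2
      · have h3 := hf h2.2
        rw [Prod.mk.injEq] at h3
        refine ⟨x.2.1, ?_, ?_⟩
        · rw [← h2.1, h3.1]
        · rw [← h3.2]; exact hx.2.symm
    · rintro ⟨b, rfl, hb⟩
      rw [Finset.mem_image]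
      exact ⟨(i, a, b), by rw [Finset.mem_filter]; exact ⟨Finset.mem_univ _, hb⟩, rfl⟩
  have hadj : ∀ i a y, (flip G F).Adj (f (i, a)) y ↔ ∃ b, y = f (i, b) ∧ K.Adj a b := by
    intro i a y
    rw [flip_adj, hF]
    constructor
    · rintro ⟨_, h2⟩
      by_contra h3
      exact hfi _ _ (h2.2 h3)
    · intro h2
      refine ⟨?_, fun h3 => absurd h3 (hfi _ _), fun h3 => absurd h2 h3⟩
      obtain ⟨b, rfl, hb⟩ := h2
      intro h4
      have h5 := hf h4
      rw [Prod.mk.injEq] at h5
      exact hb.ne h5.2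
  obtain ⟨φ⟩ := hG F
  refine ⟨fun i => φ '' (Set.range (fun a => f (i, a))), ?_, ?_⟩
  · intro i j hij
    have h1 := φ.injective.image_injective hij
    have h2 : f (i, ⟨0, hn⟩) ∈ Set.range (fun a => f (i, a)) := ⟨_, rfl⟩
    rw [h1] at h2
    obtain ⟨a, ha⟩ := h2
    have h3 := hf ha
    rw [Prod.mk.injEq] at h3
    exact h3.1.symm
  · intro i
    apply occ_iso
    refine ⟨fun a => f (i, a), ?_, ?_, ?_, rfl⟩
    · intro a b hab
      have h3 := hf hab
      rw [Prod.mk.injEq] at h3
      exact h3.2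
    · intro a b
      rw [hadj]
      constructor
      · rintro ⟨c, hc, hc2⟩
        have h3 := hf hc
        rw [Prod.mk.injEq] at h3
        rw [h3.2]; exact hc2
      · intro h
        exact ⟨b, rfl, h⟩
    · intro a v hv
      rw [hadj] at hv
      obtain ⟨b, rfl, _⟩ := hv
      exact ⟨b, rfl⟩

theorem occ_infinite {G : SimpleGraph V} (hG : FinitelyStable G) (hinf : (isoSet G).Infinite)
    {n : ℕ} (hn : 0 < n) (K : SimpleGraph (Fin n)) : (Occ G K).Infinite := by
  intro hfin
  obtain ⟨g, hg, hg2⟩ := occ_many hG hinf hn K ((Occ G K).ncard + 1)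
  have h1 : (Set.range g).ncard ≤ (Occ G K).ncard := by
    apply Set.ncard_le_ncard _ hfin
    rintro _ ⟨i, rfl⟩
    exact hg2 i
  rw [← Set.image_univ, Set.ncard_image_of_injective _ hg, Set.ncard_univ, Nat.card_eq_fintype_card,
    Fintype.card_fin] at h1
  omega

theorem closed_reach {G : SimpleGraph V} {S : Set V} (hS : ∀ u ∈ S, ∀ v, G.Adj u v → v ∈ S)
    {u v : V} (hu : u ∈ S) (h : G.Reachable u v) : v ∈ S := by
  rw [SimpleGraph.reachable_iff_reflTransGen] at h
  induction h with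
  | refl => exact hu
  | tail _ h2 ih => exact hS _ ih _ h2

theorem comp_of_occ {G : SimpleGraph V} {n : ℕ} {K : SimpleGraph (Fin n)} (hK : K.Connected)
    {S : Set V} (hS : S ∈ Occ G K) :
    ∃ C : G.ConnectedComponent, Nonempty (C.toSimpleGraph ≃g K) ∧ C.supp = S := by
  obtain ⟨f, h1, h2, h3, rfl⟩ := hS
  obtain ⟨a0⟩ := hK.nonempty
  have hsupp : (G.connectedComponentMk (f a0)).supp = Set.range f := by
    ext v
    rw [SimpleGraph.ConnectedComponent.mem_supp_iff, SimpleGraph.ConnectedComponent.eq]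
    constructor
    · intro h
      refine closed_reach ?_ ⟨a0, rfl⟩ h.symm
      rintro _ ⟨a, rfl⟩ w hw
      exact h3 a w hw
    · rintro ⟨a, rfl⟩
      have h4 : K.Reachable a a0 := hK.preconnected a a0
      exact h4.map (⟨f, fun {a b} h => (h2 a b).2 h⟩ : K →g G)
  refine ⟨G.connectedComponentMk (f a0), ?_, hsupp⟩
  have hmem : ∀ a, f a ∈ G.connectedComponentMk (f a0) := by
    intro a
    have : f a ∈ (G.connectedComponentMk (f a0)).supp := by rw [hsupp]; exact ⟨a, rfl⟩
    exact this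
  let e : Fin n ≃ (G.connectedComponentMk (f a0)) := Equiv.ofBijective
    (fun a => ⟨f a, hmem a⟩) (by
      constructor
      · intro a b hab
        exact h1 (congrArg Subtype.val hab)
      · rintro ⟨v, hv⟩
        have h5 : v ∈ (G.connectedComponentMk (f a0)).supp := hv
        rw [hsupp] at h5
        obtain ⟨a, rfl⟩ := h5
        exact ⟨a, rfl⟩)
  refine ⟨SimpleGraph.Iso.symm ⟨e, ?_⟩⟩
  intro a b
  show (G.connectedComponentMk (f a0)).toSimpleGraph.Adj ⟨f a, hmem a⟩ ⟨f b, hmem b⟩ ↔ K.Adj a b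
  rw [SimpleGraph.ConnectedComponent.toSimpleGraph_adj]
  exact h2 a b

/-- every finite connected graph is isomorphic to infinitely many components -/
def Rich (G : SimpleGraph V) : Prop :=
  ∀ (n : ℕ) (K : SimpleGraph (Fin n)), K.Connected →
    {C : G.ConnectedComponent | Nonempty (C.toSimpleGraph ≃g K)}.Infinite

theorem rich_of_finite_degree [Nontrivial V] {G : SimpleGraph V} (hG : FinitelyStable G) {v : V}
    (hv : (G.neighborSet v).Finite) : Rich G := by
  intro n K hK hfin
  have hn : 0 < n := by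
    obtain ⟨a⟩ := hK.nonempty
    exact lt_of_le_of_lt (Nat.zero_le _) a.2
  apply occ_infinite hG (isolated_infinite hG (exists_isolated hG hv)) hn K
  refine (hfin.image (fun C => C.supp)).subset ?_
  intro S hS
  obtain ⟨C, hC, hC2⟩ := comp_of_occ hK hS
  exact ⟨C, hC, hC2⟩

theorem trichotomy [Nontrivial V] {G : SimpleGraph V} (hG : FinitelyStable G) :
    (∀ v, (G.neighborSet v).Infinite ∧ (Gᶜ.neighborSet v).Infinite) ∨ Rich G ∨ Rich Gᶜ := by
  by_cases h1 : ∃ v, (G.neighborSet v).Finite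
  · obtain ⟨v, hv⟩ := h1
    exact Or.inr (Or.inl (rich_of_finite_degree hG hv))
  · by_cases h2 : ∃ v, (Gᶜ.neighborSet v).Finite
    · obtain ⟨v, hv⟩ := h2
      exact Or.inr (Or.inr (rich_of_finite_degree hG.compl hv))
    · left
      intro v
      exact ⟨fun h => h1 ⟨v, h⟩, fun h => h2 ⟨v, h⟩⟩

end General

end Pool.Agent.H74FS
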