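import Pool.Agent.H74FS.Tree

namespace Pool.Agent.H74FS

open Classical

theorem top_char {i : Bool} {T : Set (List ℕ)} {a : Pt} (h : ∀ b, Rel i T a b) : a = .top := by
  cases a with
  | top => rfl
  | ray m =>
    have := (h (.ray (m + 2))).2
    omega
  | pt s b => exact (h (.pt s b)).elim
  | wt s E => exact (h (.wt s E)).elim

theorem loop_char {i : Bool} {T : Set (List ℕ)} {a : Pt} (h : Rel i T a a) :
    a = .top ∨ ∃ m, a = .ray m := by
  cases a with
  | top => exact Or.inl rfl
  | ray m => exact Or.inr ⟨m, rfl⟩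
  | pt s b => exact h.elim
  | wt s E => exact h.elim

theorem ray_rigid (τ : ℕ → ℕ) (hinj : Function.Injective τ) (hsurj : Function.Surjective τ)
    (hadj : ∀ n m, (n ≤ m + 1 ∧ m ≤ n + 1) ↔ (τ n ≤ τ m + 1 ∧ τ m ≤ τ n + 1)) :
    ∀ n, τ n = n := by
  have h0 : τ 0 = 0 := by
    by_contra hne
    obtain ⟨a, ha⟩ := hsurj (τ 0 - 1)
    obtain ⟨b, hb⟩ := hsurj (τ 0 + 1)
    have h1 := (hadj a 0).2 (by omega)
    have h2 := (hadj b 0).2 (by omega)
    have h3 : a ≠ 0 := by rintro rfl; omega
    have h4 : b ≠ 0 := by rintro rfl; omega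
    have h5 : a = b := by omega
    rw [h5] at ha
    omega
  have h1 : τ 1 = 1 := by
    have h2 := (hadj 1 0).1 (by omega)
    have h3 : τ 1 ≠ τ 0 := hinj.ne (by omega)
    omega
  have key : ∀ n, τ n = n ∧ τ (n + 1) = n + 1 := by
    intro n
    induction n with
    | zero => exact ⟨h0, h1⟩
    | succ n ih =>
      refine ⟨ih.2, ?_⟩
      have h2 := (hadj (n + 1 + 1) (n + 1)).1 (by omega)
      have h3 : τ (n + 1 + 1) ≠ τ (n + 1) := hinj.ne (by omega)
      have h4 : τ (n + 1 + 1) ≠ τ n := hinj.ne (by omega)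
      omega
  exact fun n => (key n).1

theorem branch_of_iso {T : Set (List ℕ)}
    (h : ∃ ψ : Pt ≃ Pt, ∀ a b, Rel false T a b ↔ Rel true T (ψ a) (ψ b)) :
    ∃ y, ∀ n, pre y n ∈ T := by
  obtain ⟨ψ, hψ⟩ := h
  have htop : ψ .top = .top := by
    apply top_char (i := true) (T := T)
    intro b
    have h1 : Rel false T .top (ψ.symm b) := trivial
    have h2 := (hψ _ _).1 h1
    rwa [Equiv.apply_symm_apply] at h2
  have hray : ∀ n, ∃ m, ψ (.ray n) = .ray m := by
    intro n
    have h1 : Rel false T (.ray n) (.ray n) := ⟨by omega, by omega⟩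
    rcases loop_char ((hψ _ _).1 h1) with h2 | h2
    · exfalso
      have h3 := ψ.injective (h2.trans htop.symm)
      cases h3
    · exact h2
  choose τ hτ using hray
  have hinj : Function.Injective τ := by
    intro a b hab
    have h1 : ψ (.ray a) = ψ (.ray b) := by rw [hτ, hτ, hab]
    have h2 := ψ.injective h1
    cases h2
    rfl
  have hsurj : Function.Surjective τ := by
    intro m
    have h1 : Rel true T (.ray m) (.ray m) := ⟨by omega, by omega⟩
    have h2 : Rel false T (ψ.symm (.ray m)) (ψ.symm (.ray m)) := by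
      rw [hψ, Equiv.apply_symm_apply]; exact h1
    rcases loop_char h2 with h3 | ⟨n, h3⟩
    · exfalso
      have h4 : ψ .top = .ray m := by rw [← h3, Equiv.apply_symm_apply]
      rw [htop] at h4
      cases h4
    · refine ⟨n, ?_⟩
      have h4 : ψ (.ray n) = .ray m := by rw [← h3, Equiv.apply_symm_apply]
      rw [hτ] at h4
      cases h4
      rfl
  have hid : ∀ n, τ n = n := by
    apply ray_rigid τ hinj hsurj
    intro n m
    have h1 := hψ (.ray n) (.ray m)
    rw [hτ, hτ] at h1
    exact h1
  have hray' : ∀ n, ψ (.ray n) = .ray n := fun n => by rw [hτ, hid]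
  have hpt : ∀ s b, ∃ b', ψ (.pt s b) = .pt s b' := by
    intro s b
    have h1 : Rel false T (.pt s b) (.ray (4 * Encodable.encode s + 4)) := Or.inl rfl
    have h2 := (hψ _ _).1 h1
    rw [hray'] at h2
    have h0 : ¬ Rel false T (.pt s b) (.pt s b) := fun h => h
    rw [hψ] at h0
    rcases h3 : ψ (.pt s b) with _ | m | ⟨s', b'⟩ | ⟨s', E⟩
    · rw [h3] at h0; exact (h0 trivial).elim
    · rw [h3] at h0; exact (h0 ⟨by omega, by omega⟩).elim
    · rw [h3] at h2
      have h4 := lab_own (i := true) (T := T) h2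
      exact ⟨b', by rw [h4]⟩
    · rw [h3] at h2
      have h4 : 4 * Encodable.encode s + 4 = 4 * Encodable.encode s' + 6 := h2
      omega
  have hwt : ∀ s E, ∃ E', ψ (.wt s E) = .wt s E' := by
    intro s E
    have h1 : Rel false T (.wt s E) (.ray (4 * Encodable.encode s + 6)) := rfl
    have h2 := (hψ _ _).1 h1
    rw [hray'] at h2
    have h0 : ¬ Rel false T (.wt s E) (.wt s E) := fun h => h
    rw [hψ] at h0
    rcases h3 : ψ (.wt s E) with _ | m | ⟨s', b'⟩ | ⟨s', E'⟩
    · rw [h3] at h0; exact (h0 trivial).elim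
    · rw [h3] at h0; exact (h0 ⟨by omega, by omega⟩).elim
    · rw [h3] at h2
      exact (lab_own' (i := true) (T := T) h2).elim
    · rw [h3] at h2
      have h4 : 4 * Encodable.encode s + 6 = 4 * Encodable.encode s' + 6 := h2
      have h5 : s' = s := (Encodable.encode_injective (by omega)).symm
      exact ⟨E', by rw [h5]⟩
  choose f hf using fun s => hpt s false
  have f0 : f [] = true := by
    have h1 : Rel false T (.pt [] false) (.ray 2) := Or.inr (Or.inr ⟨rfl, rfl, rfl⟩)
    have h2 := (hψ _ _).1 h1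
    rw [hray', hf] at h2
    rcases h2 with h3 | h3 | h3
    · omega
    · omega
    · exact h3.2.2
  have f1 : ∀ s, f s = true → s ∈ T := by
    intro s hs
    by_contra hcon
    have h1 : Rel false T (.pt s false) (.ray 0) := Or.inr (Or.inl ⟨rfl, rfl, hcon⟩)
    have h2 := (hψ _ _).1 h1
    rw [hray', hf] at h2
    rcases h2 with h3 | h3 | h3
    · omega
    · rw [hs] at h3
      exact absurd h3.2.1 (by simp)
    · omega
  have f2 : ∀ s, f s = true → ∃ n, f (n :: s) = true := by
    intro s hs
    obtain ⟨E, hE⟩ := hwt s ∅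
    have h1 : Rel false T (.pt s false) (.wt s ∅) := Or.inl ⟨rfl, par_empty.symm⟩
    have h2 := (hψ _ _).1 h1
    rw [hf, hE] at h2
    have h3 : E.Nonempty := by
      rcases h2 with h4 | ⟨n, h4, _⟩
      · rw [hs] at h4
        rw [Finset.nonempty_iff_ne_empty]
        rintro rfl
        have h5 := h4.2
        rw [par_empty] at h5
        exact absurd h5 (by simp)
      · exact absurd h4 (ne_cons n s)
    obtain ⟨n, hn⟩ := h3
    refine ⟨n, ?_⟩
    have h5 : Rel false T (.pt (n :: s) false) (.wt s ∅) := Or.inr ⟨n, rfl, by simp⟩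
    have h6 := (hψ _ _).1 h5
    rw [hf, hE] at h6
    rcases h6 with h7 | ⟨k, h7, h8⟩
    · exact absurd h7.1.symm (ne_cons n s)
    · simp only [List.cons.injEq, and_true] at h7
      subst h7
      rw [h8]
      simpa using hn
  choose! g hg using f2
  let S : ℕ → List ℕ := fun n => Nat.rec [] (fun _ s => g s :: s) n
  have hS0 : S 0 = [] := rfl
  have hS1 : ∀ n, S (n + 1) = g (S n) :: S n := fun n => rfl
  have hfS : ∀ n, f (S n) = true := by
    intro n
    induction n with
    | zero => exact f0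
    | succ n ih => rw [hS1]; exact hg _ ih
  have hpre : ∀ n, pre (fun k => g (S k)) n = S n := by
    intro n
    induction n with
    | zero => rfl
    | succ n ih =>
      show g (S n) :: pre (fun k => g (S k)) n = S (n + 1)
      rw [ih, hS1]
  exact ⟨fun k => g (S k), fun n => by rw [hpre]; exact f1 _ (hfS n)⟩

end Pool.Agent.H74FS
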