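import Pool.Agent.H74FS.Two
import Pool.Agent.H74FS.Tree2
import Pool.Agent.H74FS.Analytic

namespace Pool.Agent.H74FS

open Classical

/-- the adjacency matrix of a graph on `ℕ` -/
noncomputable def adjCode (G : SimpleGraph ℕ) : ℕ × ℕ → Bool := fun p => decide (G.Adj p.1 p.2)

/-- the usual topology on the space of graphs with vertex set `ℕ`: that of the adjacency
matrices, as points of the product space `{0,1}^(ℕ × ℕ)` -/
noncomputable instance graphTopology : TopologicalSpace (SimpleGraph ℕ) :=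
  TopologicalSpace.induced adjCode inferInstance

theorem adjCode_inj : Function.Injective adjCode := by
  intro G H h
  ext m n
  have h1 := congrFun h (m, n)
  simp only [adjCode, decide_eq_decide] at h1
  exact h1

theorem continuous_graph {X : Type*} [TopologicalSpace X] {φ : X → SimpleGraph ℕ}
    (h : ∀ m n, Cl (fun x => (φ x).Adj m n)) : Continuous φ := by
  rw [continuous_induced_rng]
  exact continuous_pi (fun p => (h p.1 p.2).dec)

theorem adj_cl (m n : ℕ) : Cl (fun G : SimpleGraph ℕ => G.Adj m n) := by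
  have h1 : Continuous adjCode := continuous_induced_dom
  refine Cl.congr ((Cl.coord (D := Bool) (m, n) {true}).comp h1) ?_
  intro G
  simp [adjCode]

instance : T2Space (SimpleGraph ℕ) :=
  T2Space.of_injective_continuous adjCode_inj continuous_induced_dom

theorem lab_cl {X : Type*} [TopologicalSpace X] {T : X → Set (List ℕ)}
    (hT : ∀ s, Cl (fun x => s ∈ T x)) (i : Bool) (s : List ℕ) (b : Bool) (m : ℕ) :
    Cl (fun x => lab i (T x) s b m) := by
  unfold lab
  exact (Cl.const _).or (((Cl.const _).and ((Cl.const _).and (hT s).not)).or (Cl.const _))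

theorem Rel_cl {X : Type*} [TopologicalSpace X] {T : X → Set (List ℕ)}
    (hT : ∀ s, Cl (fun x => s ∈ T x)) (i : Bool) (a b : Pt) :
    Cl (fun x => Rel i (T x) a b) := by
  cases a with
  | top => exact Cl.congr (Cl.const True) (fun x => Iff.rfl)
  | ray m =>
    cases b with
    | top => exact Cl.congr (Cl.const True) (fun x => Iff.rfl)
    | ray n => exact Cl.congr (Cl.const (m ≤ n + 1 ∧ n ≤ m + 1)) (fun x => Iff.rfl)
    | pt s c => exact lab_cl hT i s c m
    | wt s E => exact Cl.congr (Cl.const (m = 4 * Encodable.encode s + 6)) (fun x => Iff.rfl)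
  | pt s c =>
    cases b with
    | top => exact Cl.congr (Cl.const True) (fun x => Iff.rfl)
    | ray n => exact lab_cl hT i s c n
    | pt s c => exact Cl.congr (Cl.const False) (fun x => Iff.rfl)
    | wt t E => exact Cl.congr (Cl.const (inc s c t E)) (fun x => Iff.rfl)
  | wt t E =>
    cases b with
    | top => exact Cl.congr (Cl.const True) (fun x => Iff.rfl)
    | ray n => exact Cl.congr (Cl.const (n = 4 * Encodable.encode t + 6)) (fun x => Iff.rfl)
    | pt s c => exact Cl.congr (Cl.const (inc s c t E)) (fun x => Iff.rfl)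
    | wt s E => exact Cl.congr (Cl.const False) (fun x => Iff.rfl)

theorem Rel_good (i : Bool) (T : Set (List ℕ)) : Good1 Pt.top (Rel i T) :=
  ⟨Rel_top i T, Rel_sep i T⟩

/-- the graph attached to a set of finite sequences -/
def treeGraph (T : Set (List ℕ)) : SimpleGraph (W Pt) :=
  Gam (fam (Rel false T) (Rel true T)) (fam_symm (Rel_symm _ _) (Rel_symm _ _))

theorem treeGraph_stable (T : Set (List ℕ)) :
    FinitelyStable (treeGraph T) ↔ ∃ y, ∀ n, pre y n ∈ T := by
  unfold treeGraph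
  rw [stable_fam_iff (Rel_symm _ _) (Rel_symm _ _) (Rel_good _ _) (Rel_good _ _)]
  constructor
  · exact branch_of_iso
  · rintro ⟨y, hy⟩
    exact iso_of_branch hy

theorem treeGraph_cl {X : Type*} [TopologicalSpace X] {T : X → Set (List ℕ)}
    (hT : ∀ s, Cl (fun x => s ∈ T x)) (u v : W Pt) : Cl (fun x => (treeGraph (T x)).Adj u v) := by
  have h1 : Cl (fun x => fam (Rel false (T x)) (Rel true (T x)) u.1.1 u.2.2.1 v.2.2.1) := by
    unfold fam
    by_cases h : u.1.1 = ∅
    · simp only [h, if_true]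
      exact Rel_cl hT _ _ _
    · simp only [h, if_false]
      exact Rel_cl hT _ _ _
  exact Cl.congr ((Cl.const (u ≠ v)).and ((Cl.const (u.1 = v.1)).and
    (((Cl.const (u.2.1 = v.2.1)).and h1).iff (Cl.const (s(u.2, v.2) ∉ u.1.1))))) (fun x => Iff.rfl)

instance infinite_W {B : Type} [Inhabited B] : Infinite (W B) :=
  Infinite.of_injective (fun k : ℕ => (((∅, k), (0, default, 0)) : W B)) (by
    intro a b h
    simpa using h)

instance : Inhabited Pt := ⟨.top⟩

noncomputable def eW (B : Type) [Inhabited B] [Countable B] : W B ≃ ℕ :=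
  Classical.choice nonempty_equiv_of_countable

/-- transport to the vertex set `ℕ` -/
noncomputable def toNat {B : Type} [Inhabited B] [Countable B] (G : SimpleGraph (W B)) :
    SimpleGraph ℕ := G.comap (eW B).symm

noncomputable def toNatIso {B : Type} [Inhabited B] [Countable B] (G : SimpleGraph (W B)) :
    toNat G ≃g G := ⟨(eW B).symm, Iff.rfl⟩

theorem toNat_stable {B : Type} [Inhabited B] [Countable B] (G : SimpleGraph (W B)) :
    FinitelyStable (toNat G) ↔ FinitelyStable G :=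
  ⟨fun h => h.of_iso (toNatIso G), fun h => h.of_iso (toNatIso G).symm⟩

/-- the set of finitely stable graphs on `ℕ` is hard for analytic sets -/
theorem hard (A : Set (ℕ → ℕ)) (hA : MeasureTheory.AnalyticSet A) :
    ∃ φ : (ℕ → ℕ) → SimpleGraph ℕ, Continuous φ ∧ ∀ x, x ∈ A ↔ FinitelyStable (φ x) := by
  obtain ⟨c, hc⟩ := exists_code hA
  refine ⟨fun x => toNat (treeGraph (Tr c x)), ?_, ?_⟩
  · apply continuous_graph
    intro m n
    exact treeGraph_cl (Tr_cl c) _ _
  · intro x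
    rw [hc, U_iff, toNat_stable, treeGraph_stable]

theorem not_borel : ¬ @MeasurableSet (SimpleGraph ℕ) (borel (SimpleGraph ℕ))
    {G : SimpleGraph ℕ | FinitelyStable G} := by
  intro h
  obtain ⟨φ, hφ, hφ2⟩ := hard _ diag_analytic
  let _ : MeasurableSpace (SimpleGraph ℕ) := borel (SimpleGraph ℕ)
  have : BorelSpace (SimpleGraph ℕ) := ⟨rfl⟩
  have h1 : MeasurableSet (φ ⁻¹' {G : SimpleGraph ℕ | FinitelyStable G}) := hφ.measurable h
  apply diag_not_borel
  have h2 : {x : ℕ → ℕ | U x x} = φ ⁻¹' {G : SimpleGraph ℕ | FinitelyStable G} := by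
    ext x
    exact hφ2 x
  rw [h2]
  exact h1

/-- evaluation at a point with discrete values -/
theorem Cl.bind {X : Type*} [TopologicalSpace X] {D : Type*} {g : X → D}
    (hg : ∀ d, Cl (fun x => g x = d)) {p : X → D → Prop} (hp : ∀ d, Cl (fun x => p x d)) :
    Cl (fun x => p x (g x)) := by
  have key : ∀ p : X → D → Prop, (∀ t, Cl (fun x => p x t)) → IsOpen {x | p x (g x)} := by
    intro p hp
    have : {x | p x (g x)} = ⋃ t : D, {x | g x = t} ∩ {x | p x t} := by
      ext x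
      simp
    rw [this]
    exact isOpen_iUnion fun t => (hg t).isOpen.inter (hp t).isOpen
  constructor
  · rw [← isOpen_compl_iff]
    exact key (fun x t => ¬ p x t) (fun t => (hp t).not)
  · exact key p hp

/-- the graph with a given matrix -/
def gr (c : ℕ → ℕ) : SimpleGraph ℕ where
  Adj m n := m ≠ n ∧ c (Nat.pair m n) = 0 ∧ c (Nat.pair n m) = 0
  symm := ⟨fun _ _ h => ⟨h.1.symm, h.2.2, h.2.1⟩⟩
  loopless := ⟨fun _ h => h.1 rfl⟩

/-- a code of a graph -/
noncomputable def gc (G : SimpleGraph ℕ) : ℕ → ℕ :=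
  fun k => if G.Adj k.unpair.1 k.unpair.2 then 0 else 1

theorem gr_gc (G : SimpleGraph ℕ) : gr (gc G) = G := by
  ext m n
  show (m ≠ n ∧ gc G (Nat.pair m n) = 0 ∧ gc G (Nat.pair n m) = 0) ↔ G.Adj m n
  unfold gc
  simp only [Nat.unpair_pair, ite_eq_left_iff, one_ne_zero, imp_false, not_not]
  constructor
  · exact fun h => h.2.1
  · exact fun h => ⟨h.ne, h, h.symm⟩

theorem gr_cl {X : Type*} [TopologicalSpace X] {f : X → (ℕ → ℕ)} (hf : Continuous f)
    (m n : ℕ) : Cl (fun x => (gr (f x)).Adj m n) := by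
  refine Cl.congr ((Cl.const (m ≠ n)).and (((Cl.coord (D := ℕ) (Nat.pair m n) {0}).comp hf).and
    ((Cl.coord (D := ℕ) (Nat.pair n m) {0}).comp hf))) ?_
  intro x
  exact Iff.rfl

theorem fs_analytic : MeasureTheory.AnalyticSet {G : SimpleGraph ℕ | FinitelyStable G} := by
  have h0 : {G : SimpleGraph ℕ | FinitelyStable G} =
      ⋂ F : Finset (Sym2 ℕ), {G : SimpleGraph ℕ | Nonempty (flip G F ≃g G)} := by
    ext G
    simp only [Set.mem_iInter, Set.mem_setOf_eq]
    exact Iff.rfl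
  rw [h0]
  apply MeasureTheory.AnalyticSet.iInter
  intro F
  have hC : IsClosed {z : (ℕ → ℕ) × (ℕ → ℕ) × (ℕ → ℕ) |
      ∀ m n, z.2.1 (z.2.2 m) = m ∧ z.2.2 (z.2.1 m) = m ∧
        ((flip (gr z.1) F).Adj m n ↔ (gr z.1).Adj (z.2.1 m) (z.2.1 n))} := by
    rw [Set.setOf_forall]
    refine isClosed_iInter fun m => ?_
    rw [Set.setOf_forall]
    refine isClosed_iInter fun n => ?_
    have c1 : Continuous (fun z : (ℕ → ℕ) × (ℕ → ℕ) × (ℕ → ℕ) => z.1) := continuous_fst
    have c2 : Continuous (fun z : (ℕ → ℕ) × (ℕ → ℕ) × (ℕ → ℕ) => z.2.1) :=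
      continuous_fst.comp continuous_snd
    have c3 : Continuous (fun z : (ℕ → ℕ) × (ℕ → ℕ) × (ℕ → ℕ) => z.2.2) :=
      continuous_snd.comp continuous_snd
    have e2 : ∀ k d, Cl (fun z : (ℕ → ℕ) × (ℕ → ℕ) × (ℕ → ℕ) => z.2.1 k = d) :=
      fun k d => (Cl.coord (D := ℕ) k {d}).comp c2
    have e3 : ∀ k d, Cl (fun z : (ℕ → ℕ) × (ℕ → ℕ) × (ℕ → ℕ) => z.2.2 k = d) :=
      fun k d => (Cl.coord (D := ℕ) k {d}).comp c3
    have k1 : Cl (fun z : (ℕ → ℕ) × (ℕ → ℕ) × (ℕ → ℕ) => z.2.1 (z.2.2 m) = m) :=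
      Cl.bind (e3 m) (p := fun z d => z.2.1 d = m) (fun d => e2 d m)
    have k2 : Cl (fun z : (ℕ → ℕ) × (ℕ → ℕ) × (ℕ → ℕ) => z.2.2 (z.2.1 m) = m) :=
      Cl.bind (e2 m) (p := fun z d => z.2.2 d = m) (fun d => e3 d m)
    have k3 : Cl (fun z : (ℕ → ℕ) × (ℕ → ℕ) × (ℕ → ℕ) =>
        (gr z.1).Adj (z.2.1 m) (z.2.1 n)) :=
      Cl.bind (e2 m) (p := fun z d => (gr z.1).Adj d (z.2.1 n)) (fun d =>
        Cl.bind (e2 n) (p := fun z d' => (gr z.1).Adj d d') (fun d' => gr_cl c1 d d'))
    have k4 : Cl (fun z : (ℕ → ℕ) × (ℕ → ℕ) × (ℕ → ℕ) => (flip (gr z.1) F).Adj m n) :=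
      Cl.congr ((Cl.const (m ≠ n)).and ((gr_cl c1 m n).iff (Cl.const (s(m, n) ∉ F))))
        (fun z => Iff.rfl)
    exact (k1.and (k2.and (k4.iff k3))).isClosed
  have hcont : Continuous (fun z : (ℕ → ℕ) × (ℕ → ℕ) × (ℕ → ℕ) => gr z.1) :=
    continuous_graph (fun m n => gr_cl continuous_fst m n)
  have h2 := hC.analyticSet.image_of_continuous hcont
  convert h2 using 1
  ext G
  constructor
  · rintro ⟨ψ⟩
    refine ⟨(gc G, (ψ : ℕ → ℕ), (ψ.symm : ℕ → ℕ)), ?_, gr_gc G⟩
    intro m n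
    refine ⟨by simp, by simp, ?_⟩
    simp only [gr_gc]
    exact ψ.map_adj_iff.symm
  · rintro ⟨⟨c, f, g⟩, hz, rfl⟩
    refine ⟨⟨⟨f, g, fun m => (hz m 0).2.1, fun m => (hz m 0).1⟩, ?_⟩⟩
    intro m n
    exact ((hz m n).2.2).symm

end Pool.Agent.H74FS
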