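import Pool.Agent.H74FS.Core

namespace Pool.Agent.H74FS

open Classical

variable {B : Type}

theorem stable_const [Countable B] (R : B → B → Prop) (h : ∀ a b, R a b → R b a) :
    FinitelyStable (Gam (fun _ => R) (fun _ => h)) := by
  apply FinitelyStable.of_single
  intro u v huv
  obtain ⟨j1, j2, hj, hu, hv⟩ : ∃ j1 j2 : J B, j1 ≠ j2 ∧ (u.1 = j1 ∨ u.1 = j2) ∧
      (v.1 = j1 ∨ v.1 = j2) := by
    by_cases huv1 : u.1 = v.1
    · refine ⟨u.1, (u.1.1, u.1.2 + 1), ?_, Or.inl rfl, Or.inl huv1.symm⟩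
      intro h
      have := congrArg Prod.snd h
      simp at this
    · exact ⟨u.1, v.1, huv1, Or.inl rfl, Or.inr rfl⟩
  set Γ := Gam (B := B) (fun _ => R) (fun _ => h) with hΓ
  set Z := flip Γ {s(u, v)} with hZ
  let c : Bool × ℕ ≃ ℕ := Equiv.boolProdNatEquivNat
  let κ : P B → W B := fun p =>
    (if (c.symm p.1).1 = true then j2 else j1, ((c.symm p.1).2, p.2))
  have hκ1 : ∀ p, (κ p).1 = j1 ∨ (κ p).1 = j2 := by
    intro p
    show (if (c.symm p.1).1 = true then j2 else j1) = j1 ∨
      (if (c.symm p.1).1 = true then j2 else j1) = j2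
    split_ifs
    · exact Or.inr rfl
    · exact Or.inl rfl
  have hκ2 : ∀ p q, ((κ p).1 = (κ q).1 ∧ (κ p).2.1 = (κ q).2.1) ↔ p.1 = q.1 := by
    intro p q
    constructor
    · rintro ⟨h1, h2⟩
      apply c.symm.injective
      apply Prod.ext
      · change (if (c.symm p.1).1 = true then j2 else j1) =
          (if (c.symm q.1).1 = true then j2 else j1) at h1
        by_cases h3 : (c.symm p.1).1 = true <;> by_cases h4 : (c.symm q.1).1 = true
        · rw [h3, h4]
        · rw [if_pos h3, if_neg h4] at h1; exact absurd h1.symm hj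
        · rw [if_neg h3, if_pos h4] at h1; exact absurd h1 hj
        · rw [Bool.not_eq_true] at h3 h4
          rw [h3, h4]
      · exact h2
    · intro h1
      show (if (c.symm p.1).1 = true then j2 else j1) =
          (if (c.symm q.1).1 = true then j2 else j1) ∧ (c.symm p.1).2 = (c.symm q.1).2
      rw [h1]
      exact ⟨rfl, rfl⟩
  have hκinj : Function.Injective κ := by
    intro p q hpq
    have h1 := (hκ2 p q).1 ⟨by rw [hpq], by rw [hpq]⟩
    have h2 : (κ p).2.2 = (κ q).2.2 := by rw [hpq]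
    exact Prod.ext h1 h2
  let Z0 : SimpleGraph (P B) := Z.comap κ
  have hZ0 : ∀ p q, Z0.Adj p q ↔ Z.Adj (κ p) (κ q) := fun p q => Iff.rfl
  obtain ⟨E1, hE1⟩ := exists_ends j1.1
  obtain ⟨E2, hE2⟩ := exists_ends j2.1
  let E' : Finset (W B) := ({j1} ×ˢ E1) ∪ ({j2} ×ˢ E2) ∪ {u, v}
  let E : Finset (P B) := E'.preimage κ hκinj.injOn
  have hEmem : ∀ p, p ∈ E ↔ κ p ∈ E' := fun p => Finset.mem_preimage
  have hA : ∀ p q, (κ p).1 = (κ q).1 → s((κ p).2, (κ q).2) ∈ (κ p).1.1 → p ∈ E ∧ q ∈ E := by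
    intro p q h1 h2
    rw [hEmem, hEmem]
    rcases hκ1 p with h3 | h3
    · rw [h3] at h2
      have h4 := hE1 _ _ h2
      constructor
      · refine Finset.mem_union_left _ (Finset.mem_union_left _ ?_)
        rw [Finset.mem_product]
        exact ⟨by rw [Finset.mem_singleton]; exact h3, h4.1⟩
      · refine Finset.mem_union_left _ (Finset.mem_union_left _ ?_)
        rw [Finset.mem_product]
        exact ⟨by rw [Finset.mem_singleton]; exact h1.symm.trans h3, h4.2⟩
    · rw [h3] at h2
      have h4 := hE2 _ _ h2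
      constructor
      · refine Finset.mem_union_left _ (Finset.mem_union_right _ ?_)
        rw [Finset.mem_product]
        exact ⟨by rw [Finset.mem_singleton]; exact h3, h4.1⟩
      · refine Finset.mem_union_left _ (Finset.mem_union_right _ ?_)
        rw [Finset.mem_product]
        exact ⟨by rw [Finset.mem_singleton]; exact h1.symm.trans h3, h4.2⟩
  have hB : ∀ p q, s(κ p, κ q) = s(u, v) → p ∈ E ∧ q ∈ E := by
    intro p q h1
    rw [hEmem, hEmem]
    rw [Sym2.eq_iff] at h1
    rcases h1 with h1 | h1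
    · rw [h1.1, h1.2]
      constructor
      · exact Finset.mem_union_right _ (by simp)
      · exact Finset.mem_union_right _ (by simp)
    · rw [h1.1, h1.2]
      constructor
      · exact Finset.mem_union_right _ (by simp)
      · exact Finset.mem_union_right _ (by simp)
  obtain ⟨F0, hF0⟩ := exists_diff Z0 (Y R h) E (by
    intro p q hpq
    by_contra hcon
    apply hpq
    rw [hZ0, hZ, flip_adj, Finset.mem_singleton]
    have h1 : ¬ s(κ p, κ q) = s(u, v) := fun h2 => hcon (hB p q h2)
    have h2 : (κ p).1 = (κ q).1 → s((κ p).2, (κ q).2) ∉ (κ p).1.1 :=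
      fun h3 h4 => hcon (hA p q h3 h4)
    rw [hΓ, Gam_adj]
    show _ ↔ (p ≠ q ∧ p.1 = q.1 ∧ R p.2.1 q.2.1)
    have h5 : κ p ≠ κ q ↔ p ≠ q := hκinj.ne_iff
    have h6 : (κ p).2.2.1 = p.2.1 := rfl
    have h7 : (κ q).2.2.1 = q.2.1 := rfl
    rw [h5, h6, h7, ← hκ2 p q]
    constructor
    · rintro ⟨a1, a2⟩
      have a3 := a2.2 h1
      have a4 := h2 a3.2.1
      exact ⟨a1, ⟨a3.2.1, (a3.2.2.2 a4).1⟩, (a3.2.2.2 a4).2⟩
    · rintro ⟨a1, a2, a3⟩
      refine ⟨a1, ?_⟩
      have a4 := h2 a2.1
      constructor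
      · intro _; exact h1
      · intro _
        exact ⟨a1, a2.1, ⟨fun _ => a4, fun _ => ⟨a2.2, a3⟩⟩⟩)
  obtain ⟨σ, hσ0, hσ⟩ := exists_sigma (B := B) j1 j2 F0
  let T : W B → W B := fun x => match σ.symm x.1 with
    | none => κ x.2
    | some j => (j.1, x.2)
  have hT0 : ∀ x : W B, σ.symm x.1 = none → T x = κ x.2 := by
    intro x hx
    show (match σ.symm x.1 with
    | none => κ x.2
    | some j => (j.1, x.2)) = _
    rw [hx]
  have hT1 : ∀ (x : W B) j, σ.symm x.1 = some j → T x = (j.1, x.2) := by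
    intro x j hx
    show (match σ.symm x.1 with
    | none => κ x.2
    | some j => (j.1, x.2)) = _
    rw [hx]
  have hTinj : Function.Injective T := by
    intro x y hxy
    rcases hx : σ.symm x.1 with _ | j <;> rcases hy : σ.symm y.1 with _ | k
    · rw [hT0 x hx, hT0 y hy] at hxy
      exact Prod.ext (σ.symm.injective (hx.trans hy.symm)) (hκinj hxy)
    · rw [hT0 x hx, hT1 y k hy] at hxy
      exfalso
      have h1 := congrArg Prod.fst hxy
      simp only at h1
      rcases hκ1 x.2 with h2 | h2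
      · exact k.2.1 (h1.symm.trans h2)
      · exact k.2.2 (h1.symm.trans h2)
    · rw [hT1 x j hx, hT0 y hy] at hxy
      exfalso
      have h1 := congrArg Prod.fst hxy
      simp only at h1
      rcases hκ1 y.2 with h2 | h2
      · exact j.2.1 (h1.trans h2)
      · exact j.2.2 (h1.trans h2)
    · rw [hT1 x j hx, hT1 y k hy] at hxy
      rw [Prod.mk.injEq] at hxy
      have h1 : j = k := Subtype.ext hxy.1
      subst h1
      exact Prod.ext (σ.symm.injective (hx.trans hy.symm)) hxy.2
  have hTsurj : Function.Surjective T := by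
    rintro ⟨j, a, g, k⟩
    by_cases h1 : j = j1
    · refine ⟨(σ none, (c (false, a), g, k)), ?_⟩
      rw [hT0 _ (by simp)]
      show ((if (c.symm (c (false, a))).1 = true then j2 else j1),
        ((c.symm (c (false, a))).2, g, k)) = _
      rw [Equiv.symm_apply_apply]
      simp [h1]
    · by_cases h2 : j = j2
      · refine ⟨(σ none, (c (true, a), g, k)), ?_⟩
        rw [hT0 _ (by simp)]
        show ((if (c.symm (c (true, a))).1 = true then j2 else j1),
          ((c.symm (c (true, a))).2, g, k)) = _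
        rw [Equiv.symm_apply_apply]
        simp [h2]
      · refine ⟨(σ (some ⟨j, h1, h2⟩), (a, g, k)), ?_⟩
        rw [hT1 _ ⟨j, h1, h2⟩ (by simp)]
  have hnone : ∀ (j : {j : J B // j ≠ j1 ∧ j ≠ j2}) (p : P B) (y : W B),
      s(((j.1, p) : W B), y) ≠ s(u, v) := by
    intro j p y h1
    rw [Sym2.eq_iff] at h1
    rcases h1 with h1 | h1
    · have h2 : j.1 = u.1 := congrArg Prod.fst h1.1
      rcases hu with h3 | h3
      · exact j.2.1 (h2.trans h3)
      · exact j.2.2 (h2.trans h3)
    · have h2 : j.1 = v.1 := congrArg Prod.fst h1.1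
      rcases hv with h3 | h3
      · exact j.2.1 (h2.trans h3)
      · exact j.2.2 (h2.trans h3)
  have hadj : ∀ x y, Z.Adj (T x) (T y) ↔ Γ.Adj x y := by
    intro x y
    rcases hx : σ.symm x.1 with _ | j <;> rcases hy : σ.symm y.1 with _ | k
    · rw [hT0 x hx, hT0 y hy, ← hZ0, hF0]
      have h1 : x.1 = σ none := by rw [← hx, Equiv.apply_symm_apply]
      have h2 : y.1 = σ none := by rw [← hy, Equiv.apply_symm_apply]
      rw [hΓ, Gam_adj]
      have h3 : x.1 = y.1 := h1.trans h2.symm
      have h4 : x ≠ y ↔ x.2 ≠ y.2 := by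
        constructor
        · intro h5 h6; exact h5 (Prod.ext h3 h6)
        · intro h5 h6; exact h5 (by rw [h6])
      rw [h4]
      have h7 : x.1.1 = F0 := by rw [h1]; exact hσ0
      rw [h7]
      show (x.2 ≠ y.2 ∧ ((x.2 ≠ y.2 ∧ x.2.1 = y.2.1 ∧ R x.2.2.1 y.2.2.1) ↔ s(x.2, y.2) ∉ F0)) ↔ _
      constructor
      · rintro ⟨a1, a2⟩
        exact ⟨a1, h3, by rw [← a2]; exact ⟨fun a3 => ⟨a1, a3⟩, fun a3 => a3.2⟩⟩
      · rintro ⟨a1, _, a2⟩
        exact ⟨a1, by rw [← a2]; exact ⟨fun a3 => a3.2, fun a3 => ⟨a1, a3⟩⟩⟩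
    · rw [hT0 x hx, hT1 y k hy]
      constructor
      · intro h1
        exfalso
        rw [hZ, flip_adj, Finset.mem_singleton, hΓ, Gam_adj] at h1
        have h2 := h1.2.2 (by
          intro h3
          exact hnone k y.2 (κ x.2) (Sym2.eq_swap.trans h3))
        have h4 := h2.2.1
        simp only at h4
        rcases hκ1 x.2 with h5 | h5
        · exact k.2.1 (h4.symm.trans h5)
        · exact k.2.2 (h4.symm.trans h5)
      · intro h1
        exfalso
        rw [hΓ, Gam_adj] at h1
        rw [h1.2.1, hy] at hx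
        cases hx
    · rw [hT1 x j hx, hT0 y hy]
      constructor
      · intro h1
        exfalso
        rw [hZ, flip_adj, Finset.mem_singleton, hΓ, Gam_adj] at h1
        have h2 := h1.2.2 (hnone j x.2 (κ y.2))
        have h4 := h2.2.1
        simp only at h4
        rcases hκ1 y.2 with h5 | h5
        · exact j.2.1 (h4.trans h5)
        · exact j.2.2 (h4.trans h5)
      · intro h1
        exfalso
        rw [hΓ, Gam_adj] at h1
        rw [h1.2.1, hy] at hx
        cases hx
    · rw [hT1 x j hx, hT1 y k hy, hZ, flip_adj, Finset.mem_singleton]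
      have h0 : ¬ s(((j.1, x.2) : W B), (k.1, y.2)) = s(u, v) := hnone j x.2 _
      have hx' : x.1 = σ (some j) := by rw [← hx, Equiv.apply_symm_apply]
      have hy' : y.1 = σ (some k) := by rw [← hy, Equiv.apply_symm_apply]
      have hxy1 : x.1 = y.1 ↔ j.1 = k.1 := by
        rw [hx', hy', σ.injective.eq_iff, Option.some.injEq, Subtype.ext_iff]
      have hxy2 : x ≠ y ↔ ((j.1, x.2) : W B) ≠ (k.1, y.2) := by
        apply not_congr
        constructor
        · intro h8
          rw [Prod.mk.injEq]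
          exact ⟨hxy1.1 (by rw [h8]), by rw [h8]⟩
        · intro h8
          rw [Prod.mk.injEq] at h8
          exact Prod.ext (hxy1.2 h8.1) h8.2
      have h7 : x.1.1 = j.1.1 := by rw [hx']; exact hσ j
      rw [hΓ, Gam_adj, Gam_adj, hxy1, hxy2, h7]
      simp only
      constructor
      · rintro ⟨a1, a2⟩
        exact a2.2 h0
      · intro a1
        exact ⟨a1.1, ⟨fun _ => h0, fun _ => a1⟩⟩
  refine ⟨SimpleGraph.Iso.symm ⟨Equiv.ofBijective T ⟨hTinj, hTsurj⟩, ?_⟩⟩
  intro x y
  exact hadj x y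

end Pool.Agent.H74FS
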