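import Mathlib

/-!
Two countable symmetric relations attached to a set `T` of finite sequences which are isomorphic
exactly when `T` contains all finite pieces of an infinite sequence.
-/

namespace Pool.Agent.H74FS

open Classical

inductive Pt : Type
  | top : Pt
  | ray (n : ℕ) : Pt
  | pt (s : List ℕ) (b : Bool) : Pt
  | wt (s : List ℕ) (E : Finset ℕ) : Pt

def Pt.code : Pt → Option (ℕ ⊕ (List ℕ × Bool) ⊕ (List ℕ × Finset ℕ))
  | .top => none
  | .ray n => some (Sum.inl n)
  | .pt s b => some (Sum.inr (Sum.inl (s, b)))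
  | .wt s E => some (Sum.inr (Sum.inr (s, E)))

theorem Pt.code_inj : Function.Injective Pt.code := by
  intro a b h
  cases a <;> cases b <;> simp_all [Pt.code]

instance : Countable Pt := Pt.code_inj.countable

def lab (i : Bool) (T : Set (List ℕ)) (s : List ℕ) (b : Bool) (m : ℕ) : Prop :=
  m = 4 * Encodable.encode s + 4 ∨ (m = 0 ∧ b = false ∧ s ∉ T) ∨ (m = 2 ∧ s = [] ∧ b = i)

def par (E : Finset ℕ) : Bool := decide (E.card % 2 = 1)

def inc (s : List ℕ) (b : Bool) (t : List ℕ) (E : Finset ℕ) : Prop :=
  (s = t ∧ b = par E) ∨ ∃ n, s = n :: t ∧ b = decide (n ∈ E)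

def Rel (i : Bool) (T : Set (List ℕ)) : Pt → Pt → Prop
  | .top, _ => True
  | .ray _, .top => True
  | .ray m, .ray n => m ≤ n + 1 ∧ n ≤ m + 1
  | .ray m, .pt s b => lab i T s b m
  | .ray m, .wt s _ => m = 4 * Encodable.encode s + 6
  | .pt _ _, .top => True
  | .pt s b, .ray m => lab i T s b m
  | .pt _ _, .pt _ _ => False
  | .pt s b, .wt t E => inc s b t E
  | .wt _ _, .top => True
  | .wt s _, .ray m => m = 4 * Encodable.encode s + 6
  | .wt t E, .pt s b => inc s b t E
  | .wt _ _, .wt _ _ => False

theorem Rel_symm (i : Bool) (T : Set (List ℕ)) : ∀ a b, Rel i T a b → Rel i T b a := by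
  intro a b h
  cases a <;> cases b <;> first | exact h | exact trivial | exact ⟨h.2, h.1⟩

theorem lab_even {i : Bool} {T : Set (List ℕ)} {s : List ℕ} {b : Bool} {m : ℕ}
    (h : lab i T s b m) : m % 2 = 0 := by
  rcases h with h | h | h
  · omega
  · omega
  · omega

theorem Rel_top (i : Bool) (T : Set (List ℕ)) (g : Pt) : Rel i T g .top := by
  cases g <;> trivial

theorem par_empty : par ∅ = false := by simp [par]

theorem par_single (n : ℕ) : par {n} = true := by simp [par]

theorem exists_par (b : Bool) : ∃ E, par E = b := by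
  cases b
  · exact ⟨∅, par_empty⟩
  · exact ⟨{0}, par_single 0⟩

theorem ne_cons (n : ℕ) (t : List ℕ) : t ≠ n :: t := by
  intro h
  have := congrArg List.length h
  simp at this

theorem lab_own {i : Bool} {T : Set (List ℕ)} {s s' : List ℕ} {b : Bool}
    (h : lab i T s' b (4 * Encodable.encode s + 4)) : s' = s := by
  rcases h with h | h | h
  · exact (Encodable.encode_injective (by omega)).symm
  · omega
  · omega

theorem lab_own' {i : Bool} {T : Set (List ℕ)} {s s' : List ℕ} {b : Bool}
    (h : lab i T s' b (4 * Encodable.encode s + 6)) : False := by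
  rcases h with h | h | h
  · omega
  · omega
  · omega

theorem sep_ray (i : Bool) (T : Set (List ℕ)) (m : ℕ) (x : Pt)
    (hx : ∀ k, k % 2 = 1 → ¬ Rel i T x (.ray k)) :
    ∃ k, Rel i T (.ray m) k ∧ ¬ Rel i T x k := by
  by_cases h : m % 2 = 1
  · exact ⟨.ray m, ⟨by omega, by omega⟩, hx m h⟩
  · exact ⟨.ray (m + 1), ⟨by omega, by omega⟩, hx (m + 1) (by omega)⟩

theorem Rel_sep (i : Bool) (T : Set (List ℕ)) (g g' : Pt) (h : g ≠ g') :
    ∃ k, ¬ (Rel i T g k ↔ Rel i T g' k) := by
  have key : ∀ x : Pt, x ≠ .top → ∃ k, ¬ Rel i T x k := by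
    intro x hx
    cases x with
    | top => exact absurd rfl hx
    | ray m => exact ⟨.ray (m + 2), by rintro ⟨_, h2⟩; omega⟩
    | pt s b => exact ⟨.pt s b, fun h => h⟩
    | wt s E => exact ⟨.wt s E, fun h => h⟩
  have hpt : ∀ s b k, k % 2 = 1 → ¬ Rel i T (.pt s b) (.ray k) := by
    intro s b k hk h
    have := lab_even h
    omega
  have hwt : ∀ s E k, k % 2 = 1 → ¬ Rel i T (.wt s E) (.ray k) := by
    intro s E k hk h
    have h : k = 4 * Encodable.encode s + 6 := h
    omega
  cases g with
  | top =>
    obtain ⟨k, hk⟩ := key g' (Ne.symm h)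
    exact ⟨k, fun h2 => hk (h2.1 trivial)⟩
  | ray m =>
    cases g' with
    | top =>
      obtain ⟨k, hk⟩ := key (.ray m) h
      exact ⟨k, fun h2 => hk (h2.2 trivial)⟩
    | ray n =>
      have hmn : m ≠ n := fun h2 => h (by rw [h2])
      rcases lt_or_gt_of_ne hmn with h2 | h2
      · refine ⟨.ray (n + 1), fun h3 => ?_⟩
        have h4 : Rel i T (.ray n) (.ray (n + 1)) := ⟨by omega, by omega⟩
        have h5 := h3.2 h4
        have h6 := h5.2
        omega
      · refine ⟨.ray (m + 1), fun h3 => ?_⟩
        have h4 : Rel i T (.ray m) (.ray (m + 1)) := ⟨by omega, by omega⟩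
        have h5 := h3.1 h4
        have h6 := h5.2
        omega
    | pt s b =>
      obtain ⟨k, h1, h2⟩ := sep_ray i T m (.pt s b) (hpt s b)
      exact ⟨k, fun h3 => h2 (h3.1 h1)⟩
    | wt s E =>
      obtain ⟨k, h1, h2⟩ := sep_ray i T m (.wt s E) (hwt s E)
      exact ⟨k, fun h3 => h2 (h3.1 h1)⟩
  | pt s b =>
    cases g' with
    | top =>
      obtain ⟨k, hk⟩ := key (.pt s b) h
      exact ⟨k, fun h2 => hk (h2.2 trivial)⟩
    | ray m =>
      obtain ⟨k, h1, h2⟩ := sep_ray i T m (.pt s b) (hpt s b)
      exact ⟨k, fun h3 => h2 (h3.2 h1)⟩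
    | pt s' b' =>
      by_cases hs : s = s'
      · subst hs
        have hb : b ≠ b' := fun h2 => h (by rw [h2])
        obtain ⟨E, hE⟩ := exists_par b
        refine ⟨.wt s E, fun h2 => ?_⟩
        have h3 : inc s b s E := Or.inl ⟨rfl, hE.symm⟩
        rcases h2.1 h3 with h4 | ⟨n, h4, _⟩
        · exact hb (hE.symm.trans h4.2.symm)
        · exact ne_cons n s h4
      · refine ⟨.ray (4 * Encodable.encode s + 4), fun h2 => ?_⟩
        have h3 : lab i T s b (4 * Encodable.encode s + 4) := Or.inl rfl
        exact hs (lab_own (h2.1 h3)).symm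
    | wt s' E =>
      refine ⟨.ray (4 * Encodable.encode s + 4), fun h2 => ?_⟩
      have h3 : lab i T s b (4 * Encodable.encode s + 4) := Or.inl rfl
      have h4 : 4 * Encodable.encode s + 4 = 4 * Encodable.encode s' + 6 := h2.1 h3
      omega
  | wt s E =>
    cases g' with
    | top =>
      obtain ⟨k, hk⟩ := key (.wt s E) h
      exact ⟨k, fun h2 => hk (h2.2 trivial)⟩
    | ray m =>
      obtain ⟨k, h1, h2⟩ := sep_ray i T m (.wt s E) (hwt s E)
      exact ⟨k, fun h3 => h2 (h3.2 h1)⟩
    | pt s' b =>
      refine ⟨.ray (4 * Encodable.encode s' + 4), fun h2 => ?_⟩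
      have h3 : lab i T s' b (4 * Encodable.encode s' + 4) := Or.inl rfl
      have h4 : 4 * Encodable.encode s' + 4 = 4 * Encodable.encode s + 6 := h2.2 h3
      omega
    | wt s' E' =>
      by_cases hs : s = s'
      · subst hs
        have hE : E ≠ E' := fun h2 => h (by rw [h2])
        have h5 : ∃ n, ¬ (n ∈ E ↔ n ∈ E') := by
          by_contra hcon
          apply hE
          ext n
          by_contra h6
          exact hcon ⟨n, h6⟩
        obtain ⟨n, hn⟩ := h5
        refine ⟨.pt (n :: s) true, fun h2 => ?_⟩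
        apply hn
        have h6 : ∀ F : Finset ℕ, inc (n :: s) true s F ↔ n ∈ F := by
          intro F
          constructor
          · rintro (h7 | ⟨k, h7, h8⟩)
            · exact absurd h7.1.symm (ne_cons n s)
            · simp only [List.cons.injEq, and_true] at h7
              subst h7
              simpa using h8.symm
          · intro h7
            exact Or.inr ⟨n, rfl, by simp [h7]⟩
        rw [← h6 E, ← h6 E']
        exact h2
      · refine ⟨.ray (4 * Encodable.encode s + 6), fun h2 => ?_⟩
        have h3 : 4 * Encodable.encode s + 6 = 4 * Encodable.encode s' + 6 := h2.1 rfl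
        exact hs (Encodable.encode_injective (by omega))

/-- finite pieces of an infinite sequence, latest entry first -/
def pre (y : ℕ → ℕ) : ℕ → List ℕ
  | 0 => []
  | n + 1 => y n :: pre y n

theorem length_pre (y : ℕ → ℕ) (n : ℕ) : (pre y n).length = n := by
  induction n with
  | zero => rfl
  | succ n ih => simp [pre, ih]

noncomputable def onb (y : ℕ → ℕ) (s : List ℕ) : Bool := decide (s = pre y s.length)

noncomputable def tog (E : Finset ℕ) (n : ℕ) : Finset ℕ := if n ∈ E then E.erase n else insert n E

theorem par_tog (E : Finset ℕ) (n : ℕ) : par (tog E n) = !par E := by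
  unfold tog par
  split_ifs with h
  · have h1 := Finset.card_erase_add_one h
    by_cases h2 : E.card % 2 = 1
    · have h3 : ¬ (E.erase n).card % 2 = 1 := by omega
      simp [h2]; omega
    · have h3 : (E.erase n).card % 2 = 1 := by omega
      simp [h2, h3]
  · have h1 := Finset.card_insert_of_notMem h
    rw [h1]
    by_cases h2 : E.card % 2 = 1
    · simp [h2]; omega
    · simp [h2]; omega

theorem mem_tog (E : Finset ℕ) (n k : ℕ) : k ∈ tog E n ↔ (if k = n then k ∉ E else k ∈ E) := by
  unfold tog
  split_ifs with h1 h2 h2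
  · subst h2; simp [h1]
  · simp [h2]
  · subst h2; simp [h1]
  · simp [h2]

theorem tog_tog (E : Finset ℕ) (n : ℕ) : tog (tog E n) n = E := by
  ext k
  rw [mem_tog, mem_tog]
  by_cases h : k = n
  · simp [h]
  · simp [h]

theorem onb_cons (y : ℕ → ℕ) (n : ℕ) (t : List ℕ) :
    onb y (n :: t) = (decide (n = y t.length) && onb y t) := by
  unfold onb
  rw [List.length_cons, ← Bool.decide_and]
  apply decide_eq_decide.2
  show n :: t = y t.length :: pre y t.length ↔ _
  rw [List.cons.injEq]

noncomputable def Psi (y : ℕ → ℕ) : Pt → Pt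
  | .top => .top
  | .ray n => .ray n
  | .pt s b => .pt s (xor b (onb y s))
  | .wt s E => .wt s (if onb y s = true then tog E (y s.length) else E)

theorem Psi_inv (y : ℕ → ℕ) : Function.Involutive (Psi y) := by
  intro a
  cases a with
  | top => rfl
  | ray n => rfl
  | pt s b => simp [Psi]
  | wt s E =>
    simp only [Psi]
    by_cases h : onb y s = true
    · simp only [h, if_true, tog_tog]
    · simp [h]

theorem inc_psi (y : ℕ → ℕ) (s : List ℕ) (b : Bool) (t : List ℕ) (E : Finset ℕ) :
    inc s b t E ↔ inc s (xor b (onb y s)) t (if onb y t = true then tog E (y t.length) else E) := by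
  unfold inc
  apply or_congr
  · constructor
    · rintro ⟨rfl, rfl⟩
      refine ⟨rfl, ?_⟩
      by_cases h : onb y s = true
      · rw [h, if_pos rfl, par_tog]; simp
      · rw [Bool.not_eq_true] at h
        rw [h, if_neg (by simp)]; simp
    · rintro ⟨rfl, h1⟩
      refine ⟨rfl, ?_⟩
      by_cases h : onb y s = true
      · rw [h, if_pos rfl, par_tog] at h1; simpa using h1
      · rw [Bool.not_eq_true] at h
        rw [h, if_neg (by simp)] at h1; simpa using h1
  · apply exists_congr
    intro n
    apply and_congr_right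
    rintro rfl
    rw [onb_cons]
    by_cases h : onb y t = true
    · rw [h, if_pos rfl, Bool.and_true]
      by_cases hn : n = y t.length
      · subst hn
        have h2 : (y t.length ∈ tog E (y t.length)) ↔ ¬ (y t.length ∈ E) := by
          rw [mem_tog]; simp
        by_cases h3 : y t.length ∈ E
        · have h4 : ¬ (y t.length ∈ tog E (y t.length)) := by rw [h2]; simp [h3]
          simp [h3, h4]
        · have h4 : (y t.length ∈ tog E (y t.length)) := by rw [h2]; exact h3
          simp [h3, h4]
      · have h2 : (n ∈ tog E (y t.length)) ↔ n ∈ E := by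
          rw [mem_tog]; simp [hn]
        simp [hn, h2]
    · rw [Bool.not_eq_true] at h
      rw [h, if_neg (by simp)]
      simp

theorem onb_pre {y : ℕ → ℕ} {s : List ℕ} (h : onb y s = true) : s = pre y s.length := by
  simpa [onb] using h

theorem lab_psi {y : ℕ → ℕ} {T : Set (List ℕ)} (hT : ∀ n, pre y n ∈ T) (s : List ℕ) (b : Bool)
    (m : ℕ) : lab false T s b m ↔ lab true T s (xor b (onb y s)) m := by
  unfold lab
  apply or_congr Iff.rfl
  apply or_congr
  · apply and_congr_right
    intro _
    constructor
    · rintro ⟨h1, h2⟩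
      have h3 : onb y s = false := by
        by_contra h4
        rw [Bool.not_eq_false] at h4
        apply h2
        rw [onb_pre h4]
        exact hT _
      exact ⟨by rw [h1, h3]; rfl, h2⟩
    · rintro ⟨h1, h2⟩
      have h3 : onb y s = false := by
        by_contra h4
        rw [Bool.not_eq_false] at h4
        apply h2
        rw [onb_pre h4]
        exact hT _
      rw [h3] at h1
      exact ⟨by simpa using h1, h2⟩
  · apply and_congr_right
    intro _
    apply and_congr_right
    rintro rfl
    have h3 : onb y [] = true := by simp [onb, pre]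
    rw [h3]
    simp

theorem iso_of_branch {y : ℕ → ℕ} {T : Set (List ℕ)} (hT : ∀ n, pre y n ∈ T) :
    ∃ ψ : Pt ≃ Pt, ∀ a b, Rel false T a b ↔ Rel true T (ψ a) (ψ b) := by
  refine ⟨(Psi_inv y).toPerm, ?_⟩
  intro a b
  show Rel false T a b ↔ Rel true T (Psi y a) (Psi y b)
  cases a with
  | top => exact Iff.rfl
  | ray m =>
    cases b with
    | top => exact Iff.rfl
    | ray n => exact Iff.rfl
    | pt s c => exact lab_psi hT s c m
    | wt s E => exact Iff.rfl
  | pt s c =>
    cases b with
    | top => exact Iff.rfl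
    | ray n => exact lab_psi hT s c n
    | pt s' c' => exact Iff.rfl
    | wt t E => exact inc_psi y s c t E
  | wt t E =>
    cases b with
    | top => exact Iff.rfl
    | ray n => exact Iff.rfl
    | pt s c => exact inc_psi y s c t E
    | wt t' E' => exact Iff.rfl

end Pool.Agent.H74FS
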