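import Pool.Agent.H74FS.Stable
import Pool.Agent.H74FS.Recover

namespace Pool.Agent.H74FS

open Classical

variable {B : Type}

def fam (R0 R1 : B → B → Prop) (F : I B) : B → B → Prop := if F = ∅ then R0 else R1

theorem fam_symm {R0 R1 : B → B → Prop} (h0 : ∀ a b, R0 a b → R0 b a)
    (h1 : ∀ a b, R1 a b → R1 b a) : ∀ F a b, fam R0 R1 F a b → fam R0 R1 F b a := by
  intro F a b
  unfold fam
  split_ifs
  · exact h0 a b
  · exact h1 a b

structure Good1 (t : B) (R : B → B → Prop) : Prop where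
  dom : ∀ g, R g t
  sep : ∀ g g', g ≠ g' → ∃ k, ¬ (R g k ↔ R g' k)

theorem good_fam {t : B} {R0 R1 : B → B → Prop} (h0 : Good1 t R0) (h1 : Good1 t R1) :
    Good t (fam R0 R1) := by
  constructor
  · intro F g
    unfold fam
    split_ifs
    · exact h0.dom g
    · exact h1.dom g
  · intro F g g'
    unfold fam
    split_ifs
    · exact h0.sep g g'
    · exact h1.sep g g'

theorem good_const {t : B} {R : B → B → Prop} (h : Good1 t R) : Good t (fun _ => R) :=
  ⟨fun _ => h.dom, fun _ => h.sep⟩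

/-- changing the base relations by isomorphisms -/
theorem gam_iso (R S : I B → B → B → Prop) (hR : ∀ F a b, R F a b → R F b a)
    (hS : ∀ F a b, S F a b → S F b a) (E : I B → (B ≃ B))
    (hE : ∀ F g k, R F g k ↔ S F (E F g) (E F k))
    (hE2 : ∀ F, F ≠ ∅ → E F = Equiv.refl B) : Nonempty (Gam R hR ≃g Gam S hS) := by
  let T : W B → W B := fun x => (x.1, (x.2.1, E x.1.1 x.2.2.1, x.2.2.2))
  have hbij : Function.Bijective T := by
    constructor
    · rintro ⟨j, a, g, k⟩ ⟨j', a', g', k'⟩ h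
      simp only [T, Prod.mk.injEq] at h
      obtain ⟨rfl, rfl, h3, rfl⟩ := h
      rw [(E j.1).injective h3]
    · rintro ⟨j, a, g, k⟩
      refine ⟨(j, (a, (E j.1).symm g, k)), ?_⟩
      simp [T]
  refine ⟨⟨Equiv.ofBijective T hbij, ?_⟩⟩
  intro x y
  show (Gam S hS).Adj (T x) (T y) ↔ (Gam R hR).Adj x y
  rw [Gam_adj, Gam_adj, hbij.1.ne_iff]
  have h1 : (T x).1 = x.1 := rfl
  have h2 : (T y).1 = y.1 := rfl
  rw [h1, h2]
  by_cases hxy : x.1 = y.1
  · by_cases hF : x.1.1 = ∅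
    · rw [hF]
      have h3 : (T x).2.2.1 = E ∅ x.2.2.1 := by show E x.1.1 _ = _; rw [hF]
      have h4 : (T y).2.2.1 = E ∅ y.2.2.1 := by show E y.1.1 _ = _; rw [← hxy, hF]
      rw [h3, h4, ← hE]
      simp only [Finset.notMem_empty, not_false_eq_true]
      rfl
    · have h3 : T x = x := by
        show (x.1, (x.2.1, E x.1.1 x.2.2.1, x.2.2.2)) = x
        rw [hE2 _ hF]
        rfl
      have h4 : T y = y := by
        show (y.1, (y.2.1, E y.1.1 y.2.2.1, y.2.2.2)) = y
        have hF' : y.1.1 ≠ ∅ := by rw [← hxy]; exact hF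
        rw [hE2 _ hF']
        rfl
      rw [h3, h4]
      have h5 := hE x.1.1 x.2.2.1 y.2.2.1
      rw [hE2 _ hF] at h5
      simp only [Equiv.refl_apply] at h5
      rw [h5]
  · simp [hxy]

theorem stable_fam_iff [Countable B] {t : B} {R0 R1 : B → B → Prop}
    (h0 : ∀ a b, R0 a b → R0 b a) (h1 : ∀ a b, R1 a b → R1 b a)
    (g0 : Good1 t R0) (g1 : Good1 t R1) :
    FinitelyStable (Gam (fam R0 R1) (fam_symm h0 h1)) ↔
      ∃ ψ : B ≃ B, ∀ g k, R0 g k ↔ R1 (ψ g) (ψ k) := by
  constructor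
  · intro hst
    set Γ := Gam (fam R0 R1) (fam_symm h0 h1) with hΓ
    set j : J B := (∅, 0) with hj
    obtain ⟨φ⟩ := hst {s(((j, (0, t, 0)) : W B), (j, (0, t, 1)))}
    obtain ⟨j', a', ψ, hψ, hs⟩ := recover (near_flip _ (fam_symm h0 h1) _) (good_fam g0 g1)
      (near_gam _ (fam_symm h0 h1)) (good_fam g0 g1) φ j 0
    by_cases hF : j'.1 = ∅
    · exfalso
      have key : ∀ x y : W B, x ≠ y → site x = (j', a', ψ t) → site y = (j', a', ψ t) →
          (Γ.Adj x y ↔ R0 (ψ t) (ψ t)) := by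
        intro x y hxy hx hy
        have hx1 : x.1 = j' := congrArg (fun x : J B × ℕ × B => x.1) hx
        have hx2 : x.2.1 = a' := congrArg (fun x : J B × ℕ × B => x.2.1) hx
        have hx3 : x.2.2.1 = ψ t := congrArg (fun x : J B × ℕ × B => x.2.2) hx
        have hy1 : y.1 = j' := congrArg (fun x : J B × ℕ × B => x.1) hy
        have hy2 : y.2.1 = a' := congrArg (fun x : J B × ℕ × B => x.2.1) hy
        have hy3 : y.2.2.1 = ψ t := congrArg (fun x : J B × ℕ × B => x.2.2) hy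
        rw [hΓ, Gam_adj, hx1, hx2, hx3, hy1, hy2, hy3, hF]
        unfold fam
        simp [hxy]
      have e1 : ((j, (0, t, 0)) : W B) ≠ (j, (0, t, 1)) := by simp
      have e2 : ((j, (0, t, 0)) : W B) ≠ (j, (0, t, 2)) := by simp
      have k1 := key (φ (j, (0, t, 0))) (φ (j, (0, t, 1))) (φ.injective.ne e1) (hs _ _) (hs _ _)
      have k2 := key (φ (j, (0, t, 0))) (φ (j, (0, t, 2))) (φ.injective.ne e2) (hs _ _) (hs _ _)
      rw [φ.map_adj_iff, flip_adj, hΓ, Gam_adj] at k1 k2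
      have hdom : R0 t t := g0.dom t
      simp [hj, fam, hdom] at k1 k2
      exact k1 k2
    · refine ⟨ψ, ?_⟩
      intro g k
      have := hψ g k
      unfold fam at this
      rw [if_neg hF, hj, if_pos rfl] at this
      exact this
  · rintro ⟨ψ, hψ⟩
    obtain ⟨ι⟩ := gam_iso (fam R0 R1) (fun _ => R1) (fam_symm h0 h1) (fun _ => h1)
      (fun F => if F = ∅ then ψ else Equiv.refl B) (by
        intro F g k
        unfold fam
        split_ifs
        · exact hψ g k
        · exact Iff.rfl) (by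
        intro F hF
        rw [if_neg hF])
    exact (stable_const R1 h1).of_iso ι.symm

theorem gam_const_iso_iff {t t' : B} {R S : B → B → Prop}
    (hR : ∀ a b, R a b → R b a) (hS : ∀ a b, S a b → S b a) (gR : Good1 t R) (gS : Good1 t' S)
    (φ : Gam (fun _ => R) (fun _ => hR) ≃g Gam (fun _ => S) (fun _ => hS)) :
    ∃ ψ : B ≃ B, ∀ g k, R g k ↔ S (ψ g) (ψ k) := by
  obtain ⟨j', a', ψ, hψ, hs⟩ := recover (near_gam _ (fun _ => hR)) (good_const gR)
    (near_gam _ (fun _ => hS)) (good_const gS) φ (∅, 0) 0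
  exact ⟨ψ, hψ⟩

end Pool.Agent.H74FS
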